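import Pool.Agent.H.MP_03bc95_nt.V.Me

/-!
# MP_03bc95 : three short intervals modulo a prime, almost all positions of one interval

For all intervals `I₂`, `I₃` of length less than `p^{1/3}` and every `N` the product set
`(K + {1, ..., N}) I₂ I₃` has at least `c T^{1-ε}` elements, `T = N |I₂| |I₃|`, for all but at most
`T^{1-ε}` residues `K`.
-/

open Finset
open scoped Pointwise

namespace Pool.Agent.Results.MP_03bc95_nt.AlmostAllPositions

open Pool.Agent.H.MP_03bc95_nt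

/-- An interval without `0` has fewer than `p` indices and as many elements as indices. -/
theorem itv_card {p : ℕ} (hp : p.Prime) (a N : ℕ) (I : Finset (ZMod p))
    (hI : I = (Finset.range N).image (fun i : ℕ => (((a + i : ℕ)) : ZMod p)))
    (h0 : (0 : ZMod p) ∉ I) : I.card = N := by
  have hpos : 0 < p := hp.pos
  have hNp : N < p := by
    by_contra hcon
    push Not at hcon
    apply h0
    rw [hI, Finset.mem_image]
    refine ⟨(p - a % p) % p, ?_, ?_⟩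
    · rw [Finset.mem_range]
      exact lt_of_lt_of_le (Nat.mod_lt _ hpos) hcon
    · rw [ZMod.natCast_eq_zero_iff]
      have h1 : a % p < p := Nat.mod_lt _ hpos
      rw [Nat.dvd_iff_mod_eq_zero, Nat.add_mod, Nat.mod_mod, ← Nat.add_mod,
        ← Nat.mod_add_mod]
      rw [show a % p + (p - a % p) = p by omega, Nat.mod_self]
  rw [hI, Finset.card_image_of_injOn, Finset.card_range]
  intro i hi j hj hij
  have hi' : i < N := by simpa using hi
  have hj' : j < N := by simpa using hj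
  have h1 : ((a + i : ℕ) : ZMod p) = ((a + j : ℕ) : ZMod p) := hij
  rw [ZMod.natCast_eq_natCast_iff] at h1
  have h2 : i ≡ j [MOD p] := Nat.ModEq.add_left_cancel' a h1
  exact Nat.ModEq.eq_of_lt_of_lt h2 (by omega) (by omega)

/-- The elements of the subinterval `a - 1 + {1..h}`, `h ≤ N`. -/
theorem sub_mem {p : ℕ} (a N h : ℕ) (hN : h ≤ N) (I : Finset (ZMod p))
    (hI : I = (Finset.range N).image (fun i : ℕ => (((a + i : ℕ)) : ZMod p)))
    (x : ℤ) (h1 : 1 ≤ x) (h2 : x ≤ h) : ((((a : ℤ) - 1) + x : ℤ) : ZMod p) ∈ I := by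
  rw [hI, Finset.mem_image]
  obtain ⟨n, hn⟩ : ∃ n : ℕ, x = n + 1 := ⟨(x - 1).toNat, by omega⟩
  refine ⟨n, ?_, ?_⟩
  · rw [Finset.mem_range]
    omega
  · rw [hn]
    push_cast
    ring

/-- The subinterval is contained in the interval. -/
theorem sub_itv {p : ℕ} (a N h : ℕ) (hN : h ≤ N) (I : Finset (ZMod p))
    (hI : I = (Finset.range N).image (fun i : ℕ => (((a + i : ℕ)) : ZMod p))) :
    Itv p ((a : ℤ) - 1) h ⊆ I := by
  intro y hy
  unfold Itv at hy
  rw [Finset.mem_image] at hy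
  obtain ⟨x, hx, rfl⟩ := hy
  rw [Finset.mem_Icc] at hx
  exact sub_mem a N h hN I hI x hx.1 hx.2

/-- The condition on the subinterval: `10^5 h^3 ≤ p` for `h = ⌈N/100⌉`. -/
theorem hundred {p N : ℕ} (hp : 100000 ≤ p) (hN : 1 ≤ N) (hNp : N ^ 3 < p) :
    1 ≤ (N + 99) / 100 ∧ (N + 99) / 100 ≤ N ∧ N ≤ 100 * ((N + 99) / 100) ∧
      100000 * ((N + 99) / 100) ^ 3 ≤ p := by
  refine ⟨by omega, by omega, by omega, ?_⟩
  rcases le_or_gt N 100 with h | h
  · have : (N + 99) / 100 = 1 := by omega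
    rw [this]
    simpa using hp
  · have h2 : 50 * ((N + 99) / 100) ≤ N := by omega
    have h3 : (50 * ((N + 99) / 100)) ^ 3 ≤ N ^ 3 := Nat.pow_le_pow_left h2 3
    have h4 : (50 * ((N + 99) / 100)) ^ 3 = 125000 * ((N + 99) / 100) ^ 3 := by ring
    omega

theorem cube_lt {n p : ℕ} (hn : (n : ℝ) < (p : ℝ) ^ ((1 : ℝ) / 3)) : n ^ 3 < p := by
  have h1 : (n : ℝ) ^ (3 : ℕ) < ((p : ℝ) ^ ((1 : ℝ) / 3)) ^ (3 : ℕ) :=
    pow_lt_pow_left₀ hn (Nat.cast_nonneg n) (by norm_num)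
  have h2 : ((p : ℝ) ^ ((1 : ℝ) / 3)) ^ (3 : ℕ) = p := by
    rw [← Real.rpow_natCast, ← Real.rpow_mul (Nat.cast_nonneg p)]
    norm_num
  rw [h2] at h1
  exact_mod_cast h1

theorem small_len {p n : ℕ} (hp : p < 100000) (hn : n ^ 3 < p) : (n : ℝ) ≤ 46 := by
  have h : n ≤ 46 := by
    by_contra hcon
    push Not at hcon
    have : 47 ^ 3 ≤ n ^ 3 := Nat.pow_le_pow_left hcon 3
    omega
  exact_mod_cast h


/-- `K + {1, ..., N}` is `Shf p N K`. -/
theorem shf_eq {p : ℕ} (N : ℕ) (K : ZMod p) :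
    (Finset.Icc 1 N).image (fun i : ℕ => K + (i : ZMod p)) = Shf p N K := by
  unfold Shf
  ext y
  simp only [Finset.mem_image]

/-- A product set of three sets with nonzero second and third factors is at least as large as the first
factor. -/
theorem card_le_prod {p : ℕ} [Fact p.Prime] (A B C : Finset (ZMod p)) (hB : B.Nonempty)
    (hC : C.Nonempty) (hB0 : (0 : ZMod p) ∉ B) (hC0 : (0 : ZMod p) ∉ C) :
    A.card ≤ (A * B * C).card := by
  obtain ⟨b, hb⟩ := hB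
  obtain ⟨d, hd⟩ := hC
  have hb0 : b ≠ 0 := fun h => hB0 (h ▸ hb)
  have hd0 : d ≠ 0 := fun h => hC0 (h ▸ hd)
  refine Finset.card_le_card_of_injOn (fun a => a * b * d) ?_ ?_
  · intro a ha
    exact Finset.mul_mem_mul (Finset.mul_mem_mul ha hb) hd
  · intro a _ a' _ h
    have h1 : a * b * d = a' * b * d := h
    exact mul_right_cancel₀ hb0 (mul_right_cancel₀ hd0 h1)

/-- For every `ε > 0` there is `c > 0` such that for all primes `p`, all `N ≥ 1` and all intervals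
`I₂, I₃` of nonzero residues modulo `p` of cardinalities less than `p^{1/3}` there is a set `E` of at
most `(N |I₂| |I₃|)^{1-ε}` residues such that
`|(K + {1, ..., N}) I₂ I₃| ≥ c (N |I₂| |I₃|)^{1-ε}` for all residues `K ∉ E` with
`0 ∉ K + {1, ..., N}`. -/
theorem result :
    ∀ ε : ℝ, 0 < ε → ∃ c : ℝ, 0 < c ∧ ∀ p : ℕ, p.Prime → ∀ N : ℕ, 1 ≤ N →
      ∀ I₂ I₃ : Finset (ZMod p),
        (∃ a n : ℕ, I₂ = (Finset.range n).image (fun i : ℕ => (((a + i : ℕ)) : ZMod p))) →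
        (∃ a n : ℕ, I₃ = (Finset.range n).image (fun i : ℕ => (((a + i : ℕ)) : ZMod p))) →
        (0 : ZMod p) ∉ I₂ → (0 : ZMod p) ∉ I₃ →
        (I₂.card : ℝ) < (p : ℝ) ^ ((1 : ℝ) / 3) →
        (I₃.card : ℝ) < (p : ℝ) ^ ((1 : ℝ) / 3) →
        I₂.Nonempty → I₃.Nonempty →
        ∃ E : Finset (ZMod p),
          (E.card : ℝ) ≤ ((N : ℝ) * I₂.card * I₃.card) ^ (1 - ε) ∧
          ∀ K : ZMod p, K ∉ E →
            (0 : ZMod p) ∉ (Finset.Icc 1 N).image (fun i : ℕ => K + (i : ZMod p)) →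
            c * ((N : ℝ) * I₂.card * I₃.card) ^ (1 - ε) ≤
              (((Finset.Icc 1 N).image (fun i : ℕ => K + (i : ZMod p)) * I₂ * I₃).card : ℝ) := by
  classical
  intro ε hε
  obtain ⟨c0, hc0, hmet⟩ := metric ε hε
  have hcpos : 0 < min c0 1 := lt_min hc0 one_pos
  refine ⟨min c0 1 / 100000, by positivity, ?_⟩
  intro p hp N p₁ I₂ I₃ h₂ h₃ z₂ z₃ l₂ l₃ n₂ n₃
  have : Fact p.Prime := ⟨hp⟩
  obtain ⟨a₂, N₂, hI₂⟩ := h₂
  obtain ⟨a₃, N₃, hI₃⟩ := h₃
  have e₂ := itv_card hp a₂ N₂ I₂ hI₂ z₂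
  have e₃ := itv_card hp a₃ N₃ I₃ hI₃ z₃
  have p₂ : 1 ≤ N₂ := by rw [← e₂]; exact n₂.card_pos
  have p₃ : 1 ≤ N₃ := by rw [← e₃]; exact n₃.card_pos
  rw [e₂] at l₂
  rw [e₃] at l₃
  rw [e₂, e₃]
  have k₂ := cube_lt l₂
  have k₃ := cube_lt l₃
  have q₁ : (1 : ℝ) ≤ N := by exact_mod_cast p₁
  have q₂ : (1 : ℝ) ≤ N₂ := by exact_mod_cast p₂
  have q₃ : (1 : ℝ) ≤ N₃ := by exact_mod_cast p₃
  obtain ⟨T, hT⟩ : ∃ T : ℝ, T = (N : ℝ) * N₂ * N₃ := ⟨_, rfl⟩
  have hT1 : 1 ≤ T := by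
    rw [hT]
    have : 1 ≤ (N : ℝ) * N₂ := by nlinarith
    nlinarith
  have hT0 : 0 < T := by linarith
  rw [← hT]
  -- the trivial bound
  have hNle : ∀ K : ZMod p,
      (0 : ZMod p) ∉ (Finset.Icc 1 N).image (fun i : ℕ => K + (i : ZMod p)) →
      (N : ℝ) ≤ (((Finset.Icc 1 N).image (fun i : ℕ => K + (i : ZMod p)) * I₂ * I₃).card : ℝ) := by
    intro K hK
    have h1 : ((Finset.Icc 1 N).image (fun i : ℕ => K + (i : ZMod p))).card = N := by
      rw [shf_eq] at hK ⊢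
      exact (shf_card hK).2
    have h2 := card_le_prod ((Finset.Icc 1 N).image (fun i : ℕ => K + (i : ZMod p))) I₂ I₃ n₂ n₃
      z₂ z₃
    rw [h1] at h2
    exact_mod_cast h2
  rcases le_or_gt 1 ε with he | he
  · -- exponent nonpositive
    refine ⟨∅, ?_, ?_⟩
    · simp only [Finset.card_empty, Nat.cast_zero]
      positivity
    · intro K _ hK
      have h1 : T ^ (1 - ε) ≤ 1 := Real.rpow_le_one_of_one_le_of_nonpos hT1 (by linarith)
      have h2 : 0 ≤ T ^ (1 - ε) := by positivity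
      have h3 : min c0 1 ≤ 1 := min_le_right _ _
      calc min c0 1 / 100000 * T ^ (1 - ε) ≤ 1 * 1 := by
            apply mul_le_mul _ h1 h2 zero_le_one
            linarith
        _ ≤ (N : ℝ) := by linarith
        _ ≤ _ := hNle K hK
  rcases lt_or_ge p 100000 with hps | hpl
  · -- small primes
    refine ⟨∅, ?_, ?_⟩
    · simp only [Finset.card_empty, Nat.cast_zero]
      positivity
    · intro K _ hK
      have r₂ := small_len hps k₂
      have r₃ := small_len hps k₃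
      have h1 : T ^ (1 - ε) ≤ T := by
        calc T ^ (1 - ε) ≤ T ^ (1 : ℝ) := Real.rpow_le_rpow_of_exponent_le hT1 (by linarith)
          _ = _ := Real.rpow_one _
      have h2 : T ≤ N * 2116 := by
        rw [hT]
        have h4 : (N₂ : ℝ) * N₃ ≤ 46 * 46 := mul_le_mul r₂ r₃ (by linarith) (by norm_num)
        calc (N : ℝ) * N₂ * N₃ = N * (N₂ * N₃) := by ring
          _ ≤ N * (46 * 46) := mul_le_mul_of_nonneg_left h4 (by linarith)
          _ = _ := by norm_num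
      have h3 : min c0 1 ≤ 1 := min_le_right _ _
      have h5 : 0 ≤ T ^ (1 - ε) := by positivity
      calc min c0 1 / 100000 * T ^ (1 - ε) ≤ 1 / 100000 * (N * 2116) := by
            apply mul_le_mul _ (h1.trans h2) h5 (by norm_num)
            linarith
        _ ≤ (N : ℝ) := by linarith
        _ ≤ _ := hNle K hK
  · -- main case
    obtain ⟨u₂, v₂, w₂, x₂⟩ := hundred hpl p₂ k₂
    obtain ⟨u₃, v₃, w₃, x₃⟩ := hundred hpl p₃ k₃
    obtain ⟨g₂, hg₂⟩ : ∃ g : ℕ, g = (N₂ + 99) / 100 := ⟨_, rfl⟩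
    obtain ⟨g₃, hg₃⟩ : ∃ g : ℕ, g = (N₃ + 99) / 100 := ⟨_, rfl⟩
    rw [← hg₂] at u₂ v₂ w₂ x₂
    rw [← hg₃] at u₃ v₃ w₃ x₃
    have s₂ : (1 : ℝ) ≤ g₂ := by exact_mod_cast u₂
    have s₃ : (1 : ℝ) ≤ g₃ := by exact_mod_cast u₃
    have t₂ : (g₂ : ℝ) ≤ N₂ := by exact_mod_cast v₂
    have t₃ : (g₃ : ℝ) ≤ N₃ := by exact_mod_cast v₃
    have y₂ : (N₂ : ℝ) ≤ 100 * g₂ := by exact_mod_cast w₂
    have y₃ : (N₃ : ℝ) ≤ 100 * g₃ := by exact_mod_cast w₃
    obtain ⟨U, hU⟩ : ∃ U : ℝ, U = (N : ℝ) * g₂ * g₃ := ⟨_, rfl⟩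
    have hU0 : 0 < U := by rw [hU]; positivity
    have hUT : U ≤ T := by
      rw [hU, hT]
      apply mul_le_mul (mul_le_mul_of_nonneg_left t₂ (by linarith)) t₃ (by linarith) (by positivity)
    have hTU : T ≤ 10000 * U := by
      rw [hU, hT]
      calc (N : ℝ) * N₂ * N₃ ≤ N * (100 * g₂) * (100 * g₃) := by
            apply mul_le_mul (mul_le_mul_of_nonneg_left y₂ (by linarith)) y₃ (by linarith)
              (by positivity)
        _ = _ := by ring
    have hTU' : T ^ (1 - ε) ≤ 10000 * U ^ (1 - ε) := by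
      calc T ^ (1 - ε) ≤ (10000 * U) ^ (1 - ε) := Real.rpow_le_rpow hT0.le hTU (by linarith)
        _ = (10000 : ℝ) ^ (1 - ε) * U ^ (1 - ε) := Real.mul_rpow (by norm_num) hU0.le
        _ ≤ (10000 : ℝ) ^ (1 : ℝ) * U ^ (1 - ε) := by
            apply mul_le_mul_of_nonneg_right _ (by positivity)
            exact Real.rpow_le_rpow_of_exponent_le (by norm_num) (by linarith)
        _ = _ := by rw [Real.rpow_one]
    have hUT' : U ^ (1 - ε) ≤ T ^ (1 - ε) := Real.rpow_le_rpow hU0.le hUT (by linarith)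
    -- the exceptional set
    obtain ⟨E, hE⟩ : ∃ E : Finset (ZMod p), E = Finset.univ.filter (fun K : ZMod p =>
        (0 : ZMod p) ∉ Shf p N K ∧
          ((Shf p N K * I₂ * I₃).card : ℝ) < min c0 1 / 100000 * T ^ (1 - ε)) := ⟨_, rfl⟩
    refine ⟨E, ?_, ?_⟩
    · refine le_trans ?_ hUT'
      rw [hU]
      refine hmet p ((a₂ : ℤ) - 1) ((a₃ : ℤ) - 1) N g₂ g₃ p₁ u₂ u₃ x₂ x₃
        (fun x hx1 hx2 hx0 => z₂ (hx0 ▸ sub_mem a₂ N₂ _ v₂ I₂ hI₂ x hx1 hx2))
        (fun x hx1 hx2 hx0 => z₃ (hx0 ▸ sub_mem a₃ N₃ _ v₃ I₃ hI₃ x hx1 hx2)) E ?_ ?_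
      · intro K hK
        rw [hE, Finset.mem_filter] at hK
        exact hK.2.1
      · intro K hK
        rw [hE, Finset.mem_filter] at hK
        rw [← hU]
        have h1 : Shf p N K * Itv p ((a₂ : ℤ) - 1) g₂ * Itv p ((a₃ : ℤ) - 1) g₃ ⊆
            Shf p N K * I₂ * I₃ :=
          Finset.mul_subset_mul (Finset.mul_subset_mul (Finset.Subset.refl _)
            (sub_itv a₂ N₂ g₂ v₂ I₂ hI₂)) (sub_itv a₃ N₃ g₃ v₃ I₃ hI₃)
        have h2 : ((Shf p N K * Itv p ((a₂ : ℤ) - 1) g₂ * Itv p ((a₃ : ℤ) - 1) g₃).card : ℝ) ≤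
            ((Shf p N K * I₂ * I₃).card : ℝ) := by
          exact_mod_cast Finset.card_le_card h1
        have h3 : 0 < U ^ (1 - ε) := Real.rpow_pos_of_pos hU0 _
        calc ((Shf p N K * Itv p ((a₂ : ℤ) - 1) g₂ * Itv p ((a₃ : ℤ) - 1) g₃).card : ℝ)
            ≤ ((Shf p N K * I₂ * I₃).card : ℝ) := h2
          _ < min c0 1 / 100000 * T ^ (1 - ε) := hK.2.2
          _ ≤ min c0 1 / 100000 * (10000 * U ^ (1 - ε)) :=
              mul_le_mul_of_nonneg_left hTU' (by positivity)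
          _ = min c0 1 * U ^ (1 - ε) / 10 := by ring
          _ ≤ min c0 1 * U ^ (1 - ε) := div_le_self (by positivity) (by norm_num)
          _ ≤ c0 * U ^ (1 - ε) := mul_le_mul_of_nonneg_right (min_le_left _ _) h3.le
    · intro K hK hK0
      rw [shf_eq] at hK0 ⊢
      by_contra hcon
      push Not at hcon
      apply hK
      rw [hE, Finset.mem_filter]
      exact ⟨Finset.mem_univ _, hK0, hcon⟩

end Pool.Agent.Results.MP_03bc95_nt.AlmostAllPositions
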