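import Pool.Agent.H.MP_03bc95_nt.TP

/-!
# MP_03bc95 : three short intervals modulo a prime, lengths beyond `p^{1/4}`

For all intervals of length less than `p^{1/3}` the product set has at least
`c (∏ min(|I_i|, (p^2 |I_i|)^{1/9}))^{1-ε}` elements.
The proof passes to subintervals of one hundredth of the length and uses `clean2`.
-/

open Finset
open scoped Pointwise

namespace Pool.Agent.Results.MP_03bc95_nt.BeyondQuarter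

open Pool.Agent.H.MP_03bc95_nt

/-- An interval without `0` has fewer than `p` indices and as many elements as indices. -/
theorem itv_card {p : ℕ} (hp : p.Prime) (a N : ℕ) (I : Finset (ZMod p))
    (hI : I = (Finset.range N).image (fun i : ℕ => (((a + i : ℕ)) : ZMod p)))
    (h0 : (0 : ZMod p) ∉ I) : I.card = N := by
  have hpos : 0 < p := hp.pos
  have hNp : N < p := by
    by_contra hcon
    push Not at hcon
    apply h0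
    rw [hI, Finset.mem_image]
    refine ⟨(p - a % p) % p, ?_, ?_⟩
    · rw [Finset.mem_range]
      exact lt_of_lt_of_le (Nat.mod_lt _ hpos) hcon
    · rw [ZMod.natCast_eq_zero_iff]
      have h1 : a % p < p := Nat.mod_lt _ hpos
      rw [Nat.dvd_iff_mod_eq_zero, Nat.add_mod, Nat.mod_mod, ← Nat.add_mod,
        ← Nat.mod_add_mod]
      rw [show a % p + (p - a % p) = p by omega, Nat.mod_self]
  rw [hI, Finset.card_image_of_injOn, Finset.card_range]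
  intro i hi j hj hij
  have hi' : i < N := by simpa using hi
  have hj' : j < N := by simpa using hj
  have h1 : ((a + i : ℕ) : ZMod p) = ((a + j : ℕ) : ZMod p) := hij
  rw [ZMod.natCast_eq_natCast_iff] at h1
  have h2 : i ≡ j [MOD p] := Nat.ModEq.add_left_cancel' a h1
  exact Nat.ModEq.eq_of_lt_of_lt h2 (by omega) (by omega)

/-- The elements of the subinterval `a - 1 + {1..h}`, `h ≤ N`. -/
theorem sub_mem {p : ℕ} (a N h : ℕ) (hN : h ≤ N) (I : Finset (ZMod p))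
    (hI : I = (Finset.range N).image (fun i : ℕ => (((a + i : ℕ)) : ZMod p)))
    (x : ℤ) (h1 : 1 ≤ x) (h2 : x ≤ h) : ((((a : ℤ) - 1) + x : ℤ) : ZMod p) ∈ I := by
  rw [hI, Finset.mem_image]
  obtain ⟨n, hn⟩ : ∃ n : ℕ, x = n + 1 := ⟨(x - 1).toNat, by omega⟩
  refine ⟨n, ?_, ?_⟩
  · rw [Finset.mem_range]
    omega
  · rw [hn]
    push_cast
    ring

/-- The subinterval is contained in the interval. -/
theorem sub_itv {p : ℕ} (a N h : ℕ) (hN : h ≤ N) (I : Finset (ZMod p))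
    (hI : I = (Finset.range N).image (fun i : ℕ => (((a + i : ℕ)) : ZMod p))) :
    Itv p ((a : ℤ) - 1) h ⊆ I := by
  intro y hy
  unfold Itv at hy
  rw [Finset.mem_image] at hy
  obtain ⟨x, hx, rfl⟩ := hy
  rw [Finset.mem_Icc] at hx
  exact sub_mem a N h hN I hI x hx.1 hx.2

/-- The condition on the subinterval: `10^5 h^3 ≤ p` for `h = ⌈N/100⌉`. -/
theorem hundred {p N : ℕ} (hp : 100000 ≤ p) (hN : 1 ≤ N) (hNp : N ^ 3 < p) :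
    1 ≤ (N + 99) / 100 ∧ (N + 99) / 100 ≤ N ∧ N ≤ 100 * ((N + 99) / 100) ∧
      100000 * ((N + 99) / 100) ^ 3 ≤ p := by
  refine ⟨by omega, by omega, by omega, ?_⟩
  rcases le_or_gt N 100 with h | h
  · have : (N + 99) / 100 = 1 := by omega
    rw [this]
    simpa using hp
  · have h2 : 50 * ((N + 99) / 100) ≤ N := by omega
    have h3 : (50 * ((N + 99) / 100)) ^ 3 ≤ N ^ 3 := Nat.pow_le_pow_left h2 3
    have h4 : (50 * ((N + 99) / 100)) ^ 3 = 125000 * ((N + 99) / 100) ^ 3 := by ring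
    omega

theorem cube_lt {n p : ℕ} (hn : (n : ℝ) < (p : ℝ) ^ ((1 : ℝ) / 3)) : n ^ 3 < p := by
  have h1 : (n : ℝ) ^ (3 : ℕ) < ((p : ℝ) ^ ((1 : ℝ) / 3)) ^ (3 : ℕ) :=
    pow_lt_pow_left₀ hn (Nat.cast_nonneg n) (by norm_num)
  have h2 : ((p : ℝ) ^ ((1 : ℝ) / 3)) ^ (3 : ℕ) = p := by
    rw [← Real.rpow_natCast, ← Real.rpow_mul (Nat.cast_nonneg p)]
    norm_num
  rw [h2] at h1
  exact_mod_cast h1

/-- One factor, for the passage to a subinterval of one hundredth of the length. -/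
theorem factor_le {p N g : ℕ} (hN : N ≤ 100 * g) (hg : 1 ≤ g) :
    min (N : ℝ) (((p : ℝ) ^ 2 * N) ^ ((1 : ℝ) / 9)) ≤
      100 * min (g : ℝ) (((p : ℝ) ^ 2 * g) ^ ((1 : ℝ) / 9)) := by
  have hN' : (N : ℝ) ≤ 100 * g := by exact_mod_cast hN
  rw [mul_min_of_nonneg _ _ (by norm_num : (0 : ℝ) ≤ 100)]
  refine le_min ((min_le_left _ _).trans hN') ((min_le_right _ _).trans ?_)
  have hp : (0 : ℝ) ≤ (p : ℝ) ^ 2 := by positivity
  calc ((p : ℝ) ^ 2 * N) ^ ((1 : ℝ) / 9) ≤ (100 * ((p : ℝ) ^ 2 * g)) ^ ((1 : ℝ) / 9) := by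
        apply Real.rpow_le_rpow (by positivity) _ (by norm_num)
        calc (p : ℝ) ^ 2 * N ≤ (p : ℝ) ^ 2 * (100 * g) := mul_le_mul_of_nonneg_left hN' hp
          _ = _ := by ring
    _ = (100 : ℝ) ^ ((1 : ℝ) / 9) * ((p : ℝ) ^ 2 * g) ^ ((1 : ℝ) / 9) :=
        Real.mul_rpow (by norm_num) (by positivity)
    _ ≤ 100 * ((p : ℝ) ^ 2 * g) ^ ((1 : ℝ) / 9) := by
        apply mul_le_mul_of_nonneg_right _ (by positivity)
        calc (100 : ℝ) ^ ((1 : ℝ) / 9) ≤ (100 : ℝ) ^ (1 : ℝ) :=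
              Real.rpow_le_rpow_of_exponent_le (by norm_num) (by norm_num)
          _ = 100 := Real.rpow_one _

theorem one_le_factor {p N : ℕ} (hN : 1 ≤ N) (hp : 1 ≤ p) :
    1 ≤ min (N : ℝ) (((p : ℝ) ^ 2 * N) ^ ((1 : ℝ) / 9)) := by
  have q : (1 : ℝ) ≤ N := by exact_mod_cast hN
  have r : (1 : ℝ) ≤ p := by exact_mod_cast hp
  have r2 : (1 : ℝ) ≤ (p : ℝ) ^ 2 := one_le_pow₀ r
  refine le_min q (Real.one_le_rpow ?_ (by norm_num))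
  calc (1 : ℝ) = 1 * 1 := by norm_num
    _ ≤ (p : ℝ) ^ 2 * N := mul_le_mul r2 q zero_le_one (by positivity)

/-- For every `ε > 0` there is `c > 0` such that for all primes `p` and all intervals `I₁, I₂, I₃` of
nonzero residues modulo `p` of cardinalities less than `p^{1/3}`,
`|I₁ I₂ I₃| ≥ c (∏ min(|I_i|, (p^2 |I_i|)^{1/9}))^{1-ε}`. -/
theorem result :
    ∀ ε : ℝ, 0 < ε → ∃ c : ℝ, 0 < c ∧ ∀ p : ℕ, p.Prime →
      ∀ I₁ I₂ I₃ : Finset (ZMod p),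
        (∃ a N : ℕ, I₁ = (Finset.range N).image (fun i : ℕ => (((a + i : ℕ)) : ZMod p))) →
        (∃ a N : ℕ, I₂ = (Finset.range N).image (fun i : ℕ => (((a + i : ℕ)) : ZMod p))) →
        (∃ a N : ℕ, I₃ = (Finset.range N).image (fun i : ℕ => (((a + i : ℕ)) : ZMod p))) →
        (0 : ZMod p) ∉ I₁ → (0 : ZMod p) ∉ I₂ → (0 : ZMod p) ∉ I₃ →
        (I₁.card : ℝ) < (p : ℝ) ^ ((1 : ℝ) / 3) →
        (I₂.card : ℝ) < (p : ℝ) ^ ((1 : ℝ) / 3) →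
        (I₃.card : ℝ) < (p : ℝ) ^ ((1 : ℝ) / 3) →
        I₁.Nonempty → I₂.Nonempty → I₃.Nonempty →
        c * (min (I₁.card : ℝ) (((p : ℝ) ^ 2 * I₁.card) ^ ((1 : ℝ) / 9)) *
          min (I₂.card : ℝ) (((p : ℝ) ^ 2 * I₂.card) ^ ((1 : ℝ) / 9)) *
          min (I₃.card : ℝ) (((p : ℝ) ^ 2 * I₃.card) ^ ((1 : ℝ) / 9))) ^ (1 - ε) ≤
          ((I₁ * I₂ * I₃).card : ℝ) := by
  intro ε hε
  obtain ⟨c0, hc0, hclean⟩ := clean2 ε hε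
  refine ⟨min c0 1 / 1000000, by positivity, ?_⟩
  intro p hp I₁ I₂ I₃ h₁ h₂ h₃ z₁ z₂ z₃ l₁ l₂ l₃ n₁ n₂ n₃
  obtain ⟨a₁, N₁, hI₁⟩ := h₁
  obtain ⟨a₂, N₂, hI₂⟩ := h₂
  obtain ⟨a₃, N₃, hI₃⟩ := h₃
  have e₁ := itv_card hp a₁ N₁ I₁ hI₁ z₁
  have e₂ := itv_card hp a₂ N₂ I₂ hI₂ z₂
  have e₃ := itv_card hp a₃ N₃ I₃ hI₃ z₃
  have p₁ : 1 ≤ N₁ := by rw [← e₁]; exact n₁.card_pos
  have p₂ : 1 ≤ N₂ := by rw [← e₂]; exact n₂.card_pos
  have p₃ : 1 ≤ N₃ := by rw [← e₃]; exact n₃.card_pos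
  rw [e₁] at l₁
  rw [e₂] at l₂
  rw [e₃] at l₃
  rw [e₁, e₂, e₃]
  have k₁ := cube_lt l₁
  have k₂ := cube_lt l₂
  have k₃ := cube_lt l₃
  have hp1 : 1 ≤ p := hp.one_lt.le
  have m₁ := one_le_factor p₁ hp1
  have m₂ := one_le_factor p₂ hp1
  have m₃ := one_le_factor p₃ hp1
  have b₁ : min (N₁ : ℝ) (((p : ℝ) ^ 2 * N₁) ^ ((1 : ℝ) / 9)) ≤ N₁ := min_le_left _ _
  have b₂ : min (N₂ : ℝ) (((p : ℝ) ^ 2 * N₂) ^ ((1 : ℝ) / 9)) ≤ N₂ := min_le_left _ _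
  have b₃ : min (N₃ : ℝ) (((p : ℝ) ^ 2 * N₃) ^ ((1 : ℝ) / 9)) ≤ N₃ := min_le_left _ _
  set μ₁ : ℝ := min (N₁ : ℝ) (((p : ℝ) ^ 2 * N₁) ^ ((1 : ℝ) / 9)) with hμ₁
  set μ₂ : ℝ := min (N₂ : ℝ) (((p : ℝ) ^ 2 * N₂) ^ ((1 : ℝ) / 9)) with hμ₂
  set μ₃ : ℝ := min (N₃ : ℝ) (((p : ℝ) ^ 2 * N₃) ^ ((1 : ℝ) / 9)) with hμ₃
  have base1 : 1 ≤ μ₁ * μ₂ * μ₃ := by
    have : 1 ≤ μ₁ * μ₂ := by
      calc (1 : ℝ) = 1 * 1 := by norm_num
        _ ≤ μ₁ * μ₂ := mul_le_mul m₁ m₂ zero_le_one (by linarith)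
    calc (1 : ℝ) = 1 * 1 := by norm_num
      _ ≤ μ₁ * μ₂ * μ₃ := mul_le_mul this m₃ zero_le_one (by linarith)
  have hcard : (1 : ℝ) ≤ ((I₁ * I₂ * I₃).card : ℝ) := by
    have : 1 ≤ (I₁ * I₂ * I₃).card := ((n₁.mul n₂).mul n₃).card_pos
    exact_mod_cast this
  have hcle1 : min c0 1 ≤ 1 := min_le_right _ _
  have hcle0 : min c0 1 ≤ c0 := min_le_left _ _
  have hcpos : 0 < min c0 1 := lt_min hc0 one_pos
  rcases le_or_gt 1 ε with he | he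
  · -- exponent nonpositive
    have h1 : (μ₁ * μ₂ * μ₃) ^ (1 - ε) ≤ 1 :=
      Real.rpow_le_one_of_one_le_of_nonpos base1 (by linarith)
    have h2 : 0 ≤ (μ₁ * μ₂ * μ₃) ^ (1 - ε) := Real.rpow_nonneg (by linarith) _
    calc min c0 1 / 1000000 * (μ₁ * μ₂ * μ₃) ^ (1 - ε) ≤ 1 * 1 := by
          apply mul_le_mul _ h1 h2 zero_le_one
          linarith
      _ ≤ _ := by simpa using hcard
  rcases lt_or_ge p 100000 with hps | hpl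
  · -- small primes
    have c₁ : N₁ ≤ 46 := by
      by_contra hcon
      push Not at hcon
      have : 47 ^ 3 ≤ N₁ ^ 3 := Nat.pow_le_pow_left hcon 3
      omega
    have c₂ : N₂ ≤ 46 := by
      by_contra hcon
      push Not at hcon
      have : 47 ^ 3 ≤ N₂ ^ 3 := Nat.pow_le_pow_left hcon 3
      omega
    have c₃ : N₃ ≤ 46 := by
      by_contra hcon
      push Not at hcon
      have : 47 ^ 3 ≤ N₃ ^ 3 := Nat.pow_le_pow_left hcon 3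
      omega
    have r₁ : (N₁ : ℝ) ≤ 46 := by exact_mod_cast c₁
    have r₂ : (N₂ : ℝ) ≤ 46 := by exact_mod_cast c₂
    have r₃ : (N₃ : ℝ) ≤ 46 := by exact_mod_cast c₃
    have h1 : (μ₁ * μ₂ * μ₃) ^ (1 - ε) ≤ μ₁ * μ₂ * μ₃ := by
      calc (μ₁ * μ₂ * μ₃) ^ (1 - ε) ≤ (μ₁ * μ₂ * μ₃) ^ (1 : ℝ) :=
            Real.rpow_le_rpow_of_exponent_le base1 (by linarith)
        _ = _ := Real.rpow_one _
    have h2 : μ₁ * μ₂ * μ₃ ≤ 100000 := by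
      have h3 : μ₁ * μ₂ ≤ 46 * 46 :=
        mul_le_mul (b₁.trans r₁) (b₂.trans r₂) (by linarith) (by norm_num)
      calc μ₁ * μ₂ * μ₃ ≤ (46 * 46) * 46 :=
            mul_le_mul h3 (b₃.trans r₃) (by linarith) (by norm_num)
        _ ≤ 100000 := by norm_num
    have h3 : 0 ≤ (μ₁ * μ₂ * μ₃) ^ (1 - ε) := Real.rpow_nonneg (by linarith) _
    calc min c0 1 / 1000000 * (μ₁ * μ₂ * μ₃) ^ (1 - ε)
        ≤ 1 / 1000000 * 100000 := by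
          apply mul_le_mul _ (h1.trans h2) h3 (by norm_num)
          linarith
      _ ≤ 1 := by norm_num
      _ ≤ _ := hcard
  · -- main case
    have : Fact p.Prime := ⟨hp⟩
    obtain ⟨u₁, v₁, w₁, x₁⟩ := hundred hpl p₁ k₁
    obtain ⟨u₂, v₂, w₂, x₂⟩ := hundred hpl p₂ k₂
    obtain ⟨u₃, v₃, w₃, x₃⟩ := hundred hpl p₃ k₃
    have f₁ := factor_le (p := p) w₁ u₁
    have f₂ := factor_le (p := p) w₂ u₂
    have f₃ := factor_le (p := p) w₃ u₃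
    rw [← hμ₁] at f₁
    rw [← hμ₂] at f₂
    rw [← hμ₃] at f₃
    set g₁ := (N₁ + 99) / 100 with hg₁
    set g₂ := (N₂ + 99) / 100 with hg₂
    set g₃ := (N₃ + 99) / 100 with hg₃
    have key := hclean p ((a₁ : ℤ) - 1) ((a₂ : ℤ) - 1) ((a₃ : ℤ) - 1) g₁ g₂ g₃ u₁ u₂ u₃ x₁ x₂ x₃
      (fun x hx1 hx2 hx0 => z₁ (hx0 ▸ sub_mem a₁ N₁ g₁ v₁ I₁ hI₁ x hx1 hx2))
      (fun x hx1 hx2 hx0 => z₂ (hx0 ▸ sub_mem a₂ N₂ g₂ v₂ I₂ hI₂ x hx1 hx2))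
      (fun x hx1 hx2 hx0 => z₃ (hx0 ▸ sub_mem a₃ N₃ g₃ v₃ I₃ hI₃ x hx1 hx2))
    have hsub : Itv p ((a₁ : ℤ) - 1) g₁ * Itv p ((a₂ : ℤ) - 1) g₂ * Itv p ((a₃ : ℤ) - 1) g₃ ⊆
        I₁ * I₂ * I₃ :=
      Finset.mul_subset_mul (Finset.mul_subset_mul (sub_itv a₁ N₁ g₁ v₁ I₁ hI₁)
        (sub_itv a₂ N₂ g₂ v₂ I₂ hI₂)) (sub_itv a₃ N₃ g₃ v₃ I₃ hI₃)
    have hcards : ((Itv p ((a₁ : ℤ) - 1) g₁ * Itv p ((a₂ : ℤ) - 1) g₂ *
        Itv p ((a₃ : ℤ) - 1) g₃).card : ℝ) ≤ ((I₁ * I₂ * I₃).card : ℝ) := by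
      exact_mod_cast Finset.card_le_card hsub
    have o₁ := one_le_factor u₁ hp1
    have o₂ := one_le_factor u₂ hp1
    have o₃ := one_le_factor u₃ hp1
    set ν₁ : ℝ := min (g₁ : ℝ) (((p : ℝ) ^ 2 * g₁) ^ ((1 : ℝ) / 9)) with hν₁
    set ν₂ : ℝ := min (g₂ : ℝ) (((p : ℝ) ^ 2 * g₂) ^ ((1 : ℝ) / 9)) with hν₂
    set ν₃ : ℝ := min (g₃ : ℝ) (((p : ℝ) ^ 2 * g₃) ^ ((1 : ℝ) / 9)) with hν₃
    have s₁ : (0 : ℝ) ≤ ν₁ := by linarith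
    have s₂ : (0 : ℝ) ≤ ν₂ := by linarith
    have s₃ : (0 : ℝ) ≤ ν₃ := by linarith
    have hbase : μ₁ * μ₂ * μ₃ ≤ 1000000 * (ν₁ * ν₂ * ν₃) := by
      have y₃ : μ₁ * μ₂ ≤ (100 * ν₁) * (100 * ν₂) :=
        mul_le_mul f₁ f₂ (by linarith) (by linarith)
      calc μ₁ * μ₂ * μ₃ ≤ ((100 * ν₁) * (100 * ν₂)) * (100 * ν₃) :=
            mul_le_mul y₃ f₃ (by linarith) (by positivity)
        _ = 1000000 * (ν₁ * ν₂ * ν₃) := by ring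
    have hpow : (μ₁ * μ₂ * μ₃) ^ (1 - ε) ≤
        1000000 * (ν₁ ^ (1 - ε) * ν₂ ^ (1 - ε) * ν₃ ^ (1 - ε)) := by
      calc (μ₁ * μ₂ * μ₃) ^ (1 - ε) ≤ (1000000 * (ν₁ * ν₂ * ν₃)) ^ (1 - ε) :=
            Real.rpow_le_rpow (by linarith) hbase (by linarith)
        _ = (1000000 : ℝ) ^ (1 - ε) * (ν₁ ^ (1 - ε) * ν₂ ^ (1 - ε) * ν₃ ^ (1 - ε)) := by
            rw [Real.mul_rpow (by norm_num) (by positivity),
              Real.mul_rpow (by positivity) s₃, Real.mul_rpow s₁ s₂]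
        _ ≤ (1000000 : ℝ) ^ (1 : ℝ) * (ν₁ ^ (1 - ε) * ν₂ ^ (1 - ε) * ν₃ ^ (1 - ε)) := by
            apply mul_le_mul_of_nonneg_right _ (by positivity)
            exact Real.rpow_le_rpow_of_exponent_le (by norm_num) (by linarith)
        _ = _ := by rw [Real.rpow_one]
    have hpos : 0 ≤ ν₁ ^ (1 - ε) * ν₂ ^ (1 - ε) * ν₃ ^ (1 - ε) := by positivity
    calc min c0 1 / 1000000 * (μ₁ * μ₂ * μ₃) ^ (1 - ε)
        ≤ min c0 1 / 1000000 * (1000000 * (ν₁ ^ (1 - ε) * ν₂ ^ (1 - ε) * ν₃ ^ (1 - ε))) :=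
          mul_le_mul_of_nonneg_left hpow (by positivity)
      _ = min c0 1 * (ν₁ ^ (1 - ε) * ν₂ ^ (1 - ε) * ν₃ ^ (1 - ε)) := by ring
      _ ≤ c0 * (ν₁ ^ (1 - ε) * ν₂ ^ (1 - ε) * ν₃ ^ (1 - ε)) :=
          mul_le_mul_of_nonneg_right hcle0 hpos
      _ ≤ _ := key
      _ ≤ _ := hcards

end Pool.Agent.Results.MP_03bc95_nt.BeyondQuarter
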