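import Pool.Agent.H.MP_03bc95_nt.Q.Cl
import Pool.Agent.H.MP_03bc95_nt.Q.Cm

/-!
# MP_03bc95 : three short intervals modulo a prime, one of them initial

For the interval `{1, ..., N}` and two arbitrary intervals of length less than `p^{1/3}` the product set
has at least `c X^{1-ε}` elements, where `X` is the larger one of
`|I₂| |I₃| min(N, p^{1/2} / max(|I₂|, |I₃|))` and `N f(|I₂|) f(|I₃|)`, `f(h) = min(h, (p h^2)^{1/6})`.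
The proof passes to subintervals of one hundredth of the length and uses `clean4` and `clean5`.
-/

open Finset
open scoped Pointwise

namespace Pool.Agent.Results.MP_03bc95_nt.InitialInterval

open Pool.Agent.H.MP_03bc95_nt

/-- An interval without `0` has fewer than `p` indices and as many elements as indices. -/
theorem itv_card {p : ℕ} (hp : p.Prime) (a N : ℕ) (I : Finset (ZMod p))
    (hI : I = (Finset.range N).image (fun i : ℕ => (((a + i : ℕ)) : ZMod p)))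
    (h0 : (0 : ZMod p) ∉ I) : I.card = N := by
  have hpos : 0 < p := hp.pos
  have hNp : N < p := by
    by_contra hcon
    push Not at hcon
    apply h0
    rw [hI, Finset.mem_image]
    refine ⟨(p - a % p) % p, ?_, ?_⟩
    · rw [Finset.mem_range]
      exact lt_of_lt_of_le (Nat.mod_lt _ hpos) hcon
    · rw [ZMod.natCast_eq_zero_iff]
      have h1 : a % p < p := Nat.mod_lt _ hpos
      rw [Nat.dvd_iff_mod_eq_zero, Nat.add_mod, Nat.mod_mod, ← Nat.add_mod,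
        ← Nat.mod_add_mod]
      rw [show a % p + (p - a % p) = p by omega, Nat.mod_self]
  rw [hI, Finset.card_image_of_injOn, Finset.card_range]
  intro i hi j hj hij
  have hi' : i < N := by simpa using hi
  have hj' : j < N := by simpa using hj
  have h1 : ((a + i : ℕ) : ZMod p) = ((a + j : ℕ) : ZMod p) := hij
  rw [ZMod.natCast_eq_natCast_iff] at h1
  have h2 : i ≡ j [MOD p] := Nat.ModEq.add_left_cancel' a h1
  exact Nat.ModEq.eq_of_lt_of_lt h2 (by omega) (by omega)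

/-- The elements of the subinterval `a - 1 + {1..h}`, `h ≤ N`. -/
theorem sub_mem {p : ℕ} (a N h : ℕ) (hN : h ≤ N) (I : Finset (ZMod p))
    (hI : I = (Finset.range N).image (fun i : ℕ => (((a + i : ℕ)) : ZMod p)))
    (x : ℤ) (h1 : 1 ≤ x) (h2 : x ≤ h) : ((((a : ℤ) - 1) + x : ℤ) : ZMod p) ∈ I := by
  rw [hI, Finset.mem_image]
  obtain ⟨n, hn⟩ : ∃ n : ℕ, x = n + 1 := ⟨(x - 1).toNat, by omega⟩
  refine ⟨n, ?_, ?_⟩
  · rw [Finset.mem_range]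
    omega
  · rw [hn]
    push_cast
    ring

/-- The subinterval is contained in the interval. -/
theorem sub_itv {p : ℕ} (a N h : ℕ) (hN : h ≤ N) (I : Finset (ZMod p))
    (hI : I = (Finset.range N).image (fun i : ℕ => (((a + i : ℕ)) : ZMod p))) :
    Itv p ((a : ℤ) - 1) h ⊆ I := by
  intro y hy
  unfold Itv at hy
  rw [Finset.mem_image] at hy
  obtain ⟨x, hx, rfl⟩ := hy
  rw [Finset.mem_Icc] at hx
  exact sub_mem a N h hN I hI x hx.1 hx.2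

/-- The initial interval `{1..L}` is contained in `{1..N}`. -/
theorem init_itv {p : ℕ} {L N : ℕ} (hLN : L ≤ N) :
    Itv p 0 L ⊆ (Finset.Icc 1 N).image (fun i : ℕ => (i : ZMod p)) := by
  intro y hy
  unfold Itv at hy
  rw [Finset.mem_image] at hy
  obtain ⟨x, hx, rfl⟩ := hy
  rw [Finset.mem_Icc] at hx
  obtain ⟨n, rfl⟩ : ∃ n : ℕ, x = n := ⟨x.toNat, by omega⟩
  rw [Finset.mem_image]
  refine ⟨n, ?_, ?_⟩
  · rw [Finset.mem_Icc]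
    omega
  · simp

/-- The condition on the subinterval: `10^5 h^3 ≤ p` for `h = ⌈N/100⌉`. -/
theorem hundred {p N : ℕ} (hp : 100000 ≤ p) (hN : 1 ≤ N) (hNp : N ^ 3 < p) :
    1 ≤ (N + 99) / 100 ∧ (N + 99) / 100 ≤ N ∧ N ≤ 100 * ((N + 99) / 100) ∧
      100000 * ((N + 99) / 100) ^ 3 ≤ p := by
  refine ⟨by omega, by omega, by omega, ?_⟩
  rcases le_or_gt N 100 with h | h
  · have : (N + 99) / 100 = 1 := by omega
    rw [this]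
    simpa using hp
  · have h2 : 50 * ((N + 99) / 100) ≤ N := by omega
    have h3 : (50 * ((N + 99) / 100)) ^ 3 ≤ N ^ 3 := Nat.pow_le_pow_left h2 3
    have h4 : (50 * ((N + 99) / 100)) ^ 3 = 125000 * ((N + 99) / 100) ^ 3 := by ring
    omega

theorem cube_lt {n p : ℕ} (hn : (n : ℝ) < (p : ℝ) ^ ((1 : ℝ) / 3)) : n ^ 3 < p := by
  have h1 : (n : ℝ) ^ (3 : ℕ) < ((p : ℝ) ^ ((1 : ℝ) / 3)) ^ (3 : ℕ) :=
    pow_lt_pow_left₀ hn (Nat.cast_nonneg n) (by norm_num)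
  have h2 : ((p : ℝ) ^ ((1 : ℝ) / 3)) ^ (3 : ℕ) = p := by
    rw [← Real.rpow_natCast, ← Real.rpow_mul (Nat.cast_nonneg p)]
    norm_num
  rw [h2] at h1
  exact_mod_cast h1

/-- `n M ≤ p^{1/2}` and `h ≤ M` give `n^2 h^2 ≤ p`. -/
theorem two_le {n h p : ℕ} {M : ℝ} (hM : 0 < M) (hh : (h : ℝ) ≤ M)
    (hn : (n : ℝ) ≤ (p : ℝ) ^ ((1 : ℝ) / 2) / M) : n ^ 2 * h ^ 2 ≤ p := by
  rw [le_div_iff₀ hM] at hn
  have h0 : (n : ℝ) * h ≤ (p : ℝ) ^ ((1 : ℝ) / 2) :=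
    (mul_le_mul_of_nonneg_left hh (Nat.cast_nonneg n)).trans hn
  have h1 : ((n : ℝ) * h) ^ (2 : ℕ) ≤ ((p : ℝ) ^ ((1 : ℝ) / 2)) ^ (2 : ℕ) :=
    pow_le_pow_left₀ (by positivity) h0 2
  have h2 : ((p : ℝ) ^ ((1 : ℝ) / 2)) ^ (2 : ℕ) = p := by
    rw [← Real.rpow_natCast, ← Real.rpow_mul (Nat.cast_nonneg p)]
    norm_num
  rw [h2, mul_pow] at h1
  exact_mod_cast h1

/-- The condition for the subintervals, from the one for the intervals. -/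
theorem par_le {p n N : ℕ} (hp : 100000 ≤ p) (h : n ^ 2 * N ^ 2 ≤ p) (hn : 1 ≤ n) (hN : 1 ≤ N) :
    1000 * ((n + 99) / 100) ^ 2 * ((N + 99) / 100) ^ 2 ≤ p := by
  have c1 : (n + 99) / 100 = 1 ∨ 50 * ((n + 99) / 100) ≤ n := by omega
  have c2 : (N + 99) / 100 = 1 ∨ 50 * ((N + 99) / 100) ≤ N := by omega
  have h1 : n ^ 2 ≤ n ^ 2 * N ^ 2 := Nat.le_mul_of_pos_right _ (by positivity)
  have h2 : N ^ 2 ≤ n ^ 2 * N ^ 2 := Nat.le_mul_of_pos_left _ (by positivity)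
  rcases c1 with c1 | c1
  · rw [c1]
    rcases c2 with c2 | c2
    · rw [c2]
      omega
    · have h3 : (50 * ((N + 99) / 100)) ^ 2 ≤ N ^ 2 := Nat.pow_le_pow_left c2 2
      rw [mul_pow] at h3
      omega
  · have h4 : (50 * ((n + 99) / 100)) ^ 2 ≤ n ^ 2 := Nat.pow_le_pow_left c1 2
    rw [mul_pow] at h4
    rcases c2 with c2 | c2
    · rw [c2]
      omega
    · have h3 : (50 * ((N + 99) / 100)) ^ 2 ≤ N ^ 2 := Nat.pow_le_pow_left c2 2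
      rw [mul_pow] at h3
      have h5 := Nat.mul_le_mul h4 h3
      have h6 : 50 ^ 2 * ((n + 99) / 100) ^ 2 * (50 ^ 2 * ((N + 99) / 100) ^ 2) =
          6250000 * (((n + 99) / 100) ^ 2 * ((N + 99) / 100) ^ 2) := by ring
      rw [h6] at h5
      rw [mul_assoc]
      omega

/-- One factor of the first bound, for the passage to a subinterval of one hundredth of the length. -/
theorem factor_le {p N g : ℕ} (hN : N ≤ 100 * g) :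
    min (N : ℝ) (((p : ℝ) * (N : ℝ) ^ 2) ^ ((1 : ℝ) / 6)) ≤
      100 * min (g : ℝ) (((p : ℝ) * (g : ℝ) ^ 2) ^ ((1 : ℝ) / 6)) := by
  have hN' : (N : ℝ) ≤ 100 * g := by exact_mod_cast hN
  rw [mul_min_of_nonneg _ _ (by norm_num : (0 : ℝ) ≤ 100)]
  refine le_min ((min_le_left _ _).trans hN') ((min_le_right _ _).trans ?_)
  have hN2 : (N : ℝ) ^ 2 ≤ (100 * g) ^ 2 := pow_le_pow_left₀ (Nat.cast_nonneg N) hN' 2
  calc ((p : ℝ) * (N : ℝ) ^ 2) ^ ((1 : ℝ) / 6)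
      ≤ (10000 * ((p : ℝ) * (g : ℝ) ^ 2)) ^ ((1 : ℝ) / 6) := by
        apply Real.rpow_le_rpow (by positivity) _ (by norm_num)
        calc (p : ℝ) * (N : ℝ) ^ 2 ≤ p * (100 * g) ^ 2 :=
              mul_le_mul_of_nonneg_left hN2 (Nat.cast_nonneg p)
          _ = _ := by ring
    _ = (10000 : ℝ) ^ ((1 : ℝ) / 6) * ((p : ℝ) * (g : ℝ) ^ 2) ^ ((1 : ℝ) / 6) :=
        Real.mul_rpow (by norm_num) (by positivity)
    _ ≤ 100 * ((p : ℝ) * (g : ℝ) ^ 2) ^ ((1 : ℝ) / 6) := by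
        apply mul_le_mul_of_nonneg_right _ (by positivity)
        calc (10000 : ℝ) ^ ((1 : ℝ) / 6) ≤ (10000 : ℝ) ^ ((1 : ℝ) / 2) :=
              Real.rpow_le_rpow_of_exponent_le (by norm_num) (by norm_num)
          _ = ((100 : ℝ) ^ (2 : ℝ)) ^ ((1 : ℝ) / 2) := by norm_num
          _ = 100 := by
            rw [← Real.rpow_mul (by norm_num)]
            norm_num

theorem one_le_factor {p N : ℕ} (hN : 1 ≤ N) (hp : 1 ≤ p) :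
    1 ≤ min (N : ℝ) (((p : ℝ) * (N : ℝ) ^ 2) ^ ((1 : ℝ) / 6)) := by
  have q : (1 : ℝ) ≤ N := by exact_mod_cast hN
  have r : (1 : ℝ) ≤ p := by exact_mod_cast hp
  have r2 : (1 : ℝ) ≤ (N : ℝ) ^ 2 := one_le_pow₀ q
  refine le_min q (Real.one_le_rpow ?_ (by norm_num))
  calc (1 : ℝ) = 1 * 1 := by norm_num
    _ ≤ (p : ℝ) * (N : ℝ) ^ 2 := mul_le_mul r r2 zero_le_one (by positivity)

/-- From a bound for subintervals to the intervals: `Y ≤ K Z` and `c0 Z^{1-ε} ≤ n` give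
`(min c0 1 / 10^11) Y^{1-ε} ≤ n` if `K ≤ 10^7`. -/
theorem pass {ε c0 K Y Z n : ℝ} (hε : 0 < ε) (he : ε < 1) (hc0 : 0 < c0) (hY : 0 ≤ Y)
    (hZ : 0 ≤ Z) (hK1 : 1 ≤ K) (hK : K ≤ 10000000) (hYZ : Y ≤ K * Z)
    (key : c0 * Z ^ (1 - ε) ≤ n) : min c0 1 / 100000000000 * Y ^ (1 - ε) ≤ n := by
  have hpow : Y ^ (1 - ε) ≤ 10000000 * Z ^ (1 - ε) := by
    calc Y ^ (1 - ε) ≤ (K * Z) ^ (1 - ε) := Real.rpow_le_rpow hY hYZ (by linarith)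
      _ = K ^ (1 - ε) * Z ^ (1 - ε) := Real.mul_rpow (by linarith) hZ
      _ ≤ K ^ (1 : ℝ) * Z ^ (1 - ε) := by
          apply mul_le_mul_of_nonneg_right _ (by positivity)
          exact Real.rpow_le_rpow_of_exponent_le hK1 (by linarith)
      _ = K * Z ^ (1 - ε) := by rw [Real.rpow_one]
      _ ≤ _ := mul_le_mul_of_nonneg_right hK (by positivity)
  have hG0 : 0 ≤ Z ^ (1 - ε) := by positivity
  have hcpos : 0 < min c0 1 := lt_min hc0 one_pos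
  calc min c0 1 / 100000000000 * Y ^ (1 - ε)
      ≤ min c0 1 / 100000000000 * (10000000 * Z ^ (1 - ε)) :=
        mul_le_mul_of_nonneg_left hpow (by positivity)
    _ = min c0 1 * Z ^ (1 - ε) / 10000 := by ring
    _ ≤ min c0 1 * Z ^ (1 - ε) := div_le_self (mul_nonneg hcpos.le hG0) (by norm_num)
    _ ≤ c0 * Z ^ (1 - ε) := mul_le_mul_of_nonneg_right (min_le_left _ _) hG0
    _ ≤ _ := key

/-- The cases `ε ≥ 1` and small `Y`. -/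
theorem trivial_case {ε c0 Y n : ℝ} (hε : 0 < ε) (hc0 : 0 < c0) (hY : 1 ≤ Y)
    (h : 1 ≤ ε ∨ Y ≤ 100000000000) (hn : 1 ≤ n) :
    min c0 1 / 100000000000 * Y ^ (1 - ε) ≤ n := by
  have hcle1 : min c0 1 ≤ 1 := min_le_right _ _
  have hcpos : 0 < min c0 1 := lt_min hc0 one_pos
  have h2 : 0 ≤ Y ^ (1 - ε) := by positivity
  have h1 : Y ^ (1 - ε) ≤ 100000000000 := by
    rcases le_or_gt 1 ε with he | he
    · have := Real.rpow_le_one_of_one_le_of_nonpos hY (show 1 - ε ≤ 0 by linarith)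
      linarith
    · rcases h with h | h
      · linarith
      · calc Y ^ (1 - ε) ≤ Y ^ (1 : ℝ) := Real.rpow_le_rpow_of_exponent_le hY (by linarith)
          _ = Y := Real.rpow_one _
          _ ≤ _ := h
  calc min c0 1 / 100000000000 * Y ^ (1 - ε)
      ≤ 1 / 100000000000 * 100000000000 := by
        apply mul_le_mul _ h1 h2 (by norm_num)
        linarith
    _ = 1 := by norm_num
    _ ≤ _ := hn

theorem small_len {p n : ℕ} (hp : p < 100000) (hn : n ^ 3 < p) : (n : ℝ) ≤ 46 := by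
  have h : n ≤ 46 := by
    by_contra hcon
    push Not at hcon
    have : 47 ^ 3 ≤ n ^ 3 := Nat.pow_le_pow_left hcon 3
    omega
  exact_mod_cast h

/-- The product of the subintervals is contained in the product of the intervals. -/
theorem sub_prod {p a₂ a₃ N N₂ N₃ g₁ g₂ g₃ : ℕ} (v₁ : g₁ ≤ N) (v₂ : g₂ ≤ N₂) (v₃ : g₃ ≤ N₃)
    (I₂ I₃ : Finset (ZMod p))
    (hI₂ : I₂ = (Finset.range N₂).image (fun i : ℕ => (((a₂ + i : ℕ)) : ZMod p)))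
    (hI₃ : I₃ = (Finset.range N₃).image (fun i : ℕ => (((a₃ + i : ℕ)) : ZMod p))) :
    ((Itv p ((a₂ : ℤ) - 1) g₂ * Itv p ((a₃ : ℤ) - 1) g₃ * Itv p 0 g₁).card : ℝ) ≤
      (((Finset.Icc 1 N).image (fun i : ℕ => (i : ZMod p)) * I₂ * I₃).card : ℝ) := by
  have h1 : Itv p ((a₂ : ℤ) - 1) g₂ * Itv p ((a₃ : ℤ) - 1) g₃ * Itv p 0 g₁ ⊆
      I₂ * I₃ * (Finset.Icc 1 N).image (fun i : ℕ => (i : ZMod p)) :=
    Finset.mul_subset_mul (Finset.mul_subset_mul (sub_itv a₂ N₂ g₂ v₂ I₂ hI₂)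
      (sub_itv a₃ N₃ g₃ v₃ I₃ hI₃)) (init_itv v₁)
  rw [mul_comm (I₂ * I₃), ← mul_assoc] at h1
  exact_mod_cast Finset.card_le_card h1

/-- The first bound: `|{1, ..., N} I₂ I₃| ≥ c (N f(|I₂|) f(|I₃|))^{1-ε}`. -/
theorem bound_one :
    ∀ ε : ℝ, 0 < ε → ∃ c : ℝ, 0 < c ∧ ∀ p : ℕ, p.Prime → ∀ N : ℕ, 1 ≤ N →
      (N : ℝ) < (p : ℝ) ^ ((1 : ℝ) / 3) →
      ∀ I₂ I₃ : Finset (ZMod p),
        (∃ a n : ℕ, I₂ = (Finset.range n).image (fun i : ℕ => (((a + i : ℕ)) : ZMod p))) →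
        (∃ a n : ℕ, I₃ = (Finset.range n).image (fun i : ℕ => (((a + i : ℕ)) : ZMod p))) →
        (0 : ZMod p) ∉ I₂ → (0 : ZMod p) ∉ I₃ →
        (I₂.card : ℝ) < (p : ℝ) ^ ((1 : ℝ) / 3) →
        (I₃.card : ℝ) < (p : ℝ) ^ ((1 : ℝ) / 3) →
        I₂.Nonempty → I₃.Nonempty →
        c * ((N : ℝ) *
          min (I₂.card : ℝ) (((p : ℝ) * (I₂.card : ℝ) ^ 2) ^ ((1 : ℝ) / 6)) *
          min (I₃.card : ℝ) (((p : ℝ) * (I₃.card : ℝ) ^ 2) ^ ((1 : ℝ) / 6))) ^ (1 - ε) ≤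
          (((Finset.Icc 1 N).image (fun i : ℕ => (i : ZMod p)) * I₂ * I₃).card : ℝ) := by
  intro ε hε
  obtain ⟨c0, hc0, hclean⟩ := clean5 ε hε
  refine ⟨min c0 1 / 100000000000, by positivity, ?_⟩
  intro p hp N p₁ l₁ I₂ I₃ h₂ h₃ z₂ z₃ l₂ l₃ n₂ n₃
  obtain ⟨a₂, N₂, hI₂⟩ := h₂
  obtain ⟨a₃, N₃, hI₃⟩ := h₃
  have e₂ := itv_card hp a₂ N₂ I₂ hI₂ z₂
  have e₃ := itv_card hp a₃ N₃ I₃ hI₃ z₃
  have p₂ : 1 ≤ N₂ := by rw [← e₂]; exact n₂.card_pos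
  have p₃ : 1 ≤ N₃ := by rw [← e₃]; exact n₃.card_pos
  rw [e₂] at l₂
  rw [e₃] at l₃
  rw [e₂, e₃]
  have k₁ := cube_lt l₁
  have k₂ := cube_lt l₂
  have k₃ := cube_lt l₃
  have q₁ : (1 : ℝ) ≤ N := by exact_mod_cast p₁
  have hp1 : 1 ≤ p := hp.one_lt.le
  have m₂ := one_le_factor p₂ hp1
  have m₃ := one_le_factor p₃ hp1
  have b₂ : min (N₂ : ℝ) (((p : ℝ) * (N₂ : ℝ) ^ 2) ^ ((1 : ℝ) / 6)) ≤ N₂ := min_le_left _ _
  have b₃ : min (N₃ : ℝ) (((p : ℝ) * (N₃ : ℝ) ^ 2) ^ ((1 : ℝ) / 6)) ≤ N₃ := min_le_left _ _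
  have hne : ((Finset.Icc 1 N).image (fun i : ℕ => (i : ZMod p))).Nonempty :=
    Finset.Nonempty.image ⟨1, Finset.mem_Icc.2 ⟨le_refl _, p₁⟩⟩ _
  have hcard : (1 : ℝ) ≤
      (((Finset.Icc 1 N).image (fun i : ℕ => (i : ZMod p)) * I₂ * I₃).card : ℝ) := by
    have : 1 ≤ ((Finset.Icc 1 N).image (fun i : ℕ => (i : ZMod p)) * I₂ * I₃).card :=
      ((hne.mul n₂).mul n₃).card_pos
    exact_mod_cast this
  obtain ⟨μ₂, hμ₂⟩ : ∃ μ : ℝ, μ = min (N₂ : ℝ) (((p : ℝ) * (N₂ : ℝ) ^ 2) ^ ((1 : ℝ) / 6)) :=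
    ⟨_, rfl⟩
  obtain ⟨μ₃, hμ₃⟩ : ∃ μ : ℝ, μ = min (N₃ : ℝ) (((p : ℝ) * (N₃ : ℝ) ^ 2) ^ ((1 : ℝ) / 6)) :=
    ⟨_, rfl⟩
  rw [← hμ₂] at m₂ b₂ ⊢
  rw [← hμ₃] at m₃ b₃ ⊢
  have hNμ : 1 ≤ (N : ℝ) * μ₂ := by nlinarith
  have base1 : 1 ≤ (N : ℝ) * μ₂ * μ₃ := by nlinarith
  rcases le_or_gt 1 ε with he | he
  · exact trivial_case hε hc0 base1 (Or.inl he) hcard
  rcases lt_or_ge p 100000 with hps | hpl
  · refine trivial_case hε hc0 base1 (Or.inr ?_) hcard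
    have r₁ := small_len hps k₁
    have r₂ := b₂.trans (small_len hps k₂)
    have r₃ := b₃.trans (small_len hps k₃)
    have h3 : (N : ℝ) * μ₂ ≤ 46 * 46 := mul_le_mul r₁ r₂ (by linarith) (by norm_num)
    calc (N : ℝ) * μ₂ * μ₃ ≤ (46 * 46) * 46 :=
          mul_le_mul h3 r₃ (by linarith) (by norm_num)
      _ ≤ 100000000000 := by norm_num
  · have : Fact p.Prime := ⟨hp⟩
    obtain ⟨u₁, v₁, w₁, x₁⟩ := hundred hpl p₁ k₁
    obtain ⟨u₂, v₂, w₂, x₂⟩ := hundred hpl p₂ k₂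
    obtain ⟨u₃, v₃, w₃, x₃⟩ := hundred hpl p₃ k₃
    have f₂ := factor_le (p := p) w₂
    have f₃ := factor_le (p := p) w₃
    rw [← hμ₂] at f₂
    rw [← hμ₃] at f₃
    have o₂ := one_le_factor u₂ hp1
    have o₃ := one_le_factor u₃ hp1
    have key := (hclean p ((a₂ : ℤ) - 1) ((a₃ : ℤ) - 1) _ _ _ u₂ u₃ u₁ x₂ x₃ x₁
      (fun x hx1 hx2 hx0 => z₂ (hx0 ▸ sub_mem a₂ N₂ _ v₂ I₂ hI₂ x hx1 hx2))
      (fun x hx1 hx2 hx0 => z₃ (hx0 ▸ sub_mem a₃ N₃ _ v₃ I₃ hI₃ x hx1 hx2))).trans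
      (sub_prod v₁ v₂ v₃ I₂ I₃ hI₂ hI₃)
    have y₁ : (N : ℝ) ≤ 100 * (((N + 99) / 100 : ℕ) : ℝ) := by exact_mod_cast w₁
    generalize min ((((N₂ + 99) / 100 : ℕ)) : ℝ)
      (((p : ℝ) * ((((N₂ + 99) / 100 : ℕ)) : ℝ) ^ 2) ^ ((1 : ℝ) / 6)) = ν₂ at key f₂ o₂
    generalize min ((((N₃ + 99) / 100 : ℕ)) : ℝ)
      (((p : ℝ) * ((((N₃ + 99) / 100 : ℕ)) : ℝ) ^ 2) ^ ((1 : ℝ) / 6)) = ν₃ at key f₃ o₃
    refine pass (K := 1000000) hε he hc0 (by linarith) (by positivity) (by norm_num)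
      (by norm_num) ?_ key
    have y₄ : (N : ℝ) * μ₂ ≤ (100 * (((N + 99) / 100 : ℕ) : ℝ)) * (100 * ν₂) :=
      mul_le_mul y₁ f₂ (by linarith) (by positivity)
    calc (N : ℝ) * μ₂ * μ₃
        ≤ ((100 * (((N + 99) / 100 : ℕ) : ℝ)) * (100 * ν₂)) * (100 * ν₃) :=
          mul_le_mul y₄ f₃ (by linarith) (by positivity)
      _ = 1000000 * ((((N + 99) / 100 : ℕ) : ℝ) * ν₂ * ν₃) := by ring

/-- The second bound: `|{1, ..., N} I₂ I₃| ≥ c (|I₂| |I₃| min(N, p^{1/2} / max(|I₂|, |I₃|)))^{1-ε}`. -/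
theorem bound_two :
    ∀ ε : ℝ, 0 < ε → ∃ c : ℝ, 0 < c ∧ ∀ p : ℕ, p.Prime → ∀ N : ℕ, 1 ≤ N →
      (N : ℝ) < (p : ℝ) ^ ((1 : ℝ) / 3) →
      ∀ I₂ I₃ : Finset (ZMod p),
        (∃ a n : ℕ, I₂ = (Finset.range n).image (fun i : ℕ => (((a + i : ℕ)) : ZMod p))) →
        (∃ a n : ℕ, I₃ = (Finset.range n).image (fun i : ℕ => (((a + i : ℕ)) : ZMod p))) →
        (0 : ZMod p) ∉ I₂ → (0 : ZMod p) ∉ I₃ →
        (I₂.card : ℝ) < (p : ℝ) ^ ((1 : ℝ) / 3) →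
        (I₃.card : ℝ) < (p : ℝ) ^ ((1 : ℝ) / 3) →
        I₂.Nonempty → I₃.Nonempty →
        c * ((I₂.card : ℝ) * I₃.card *
          min (N : ℝ) ((p : ℝ) ^ ((1 : ℝ) / 2) / max (I₂.card : ℝ) (I₃.card : ℝ))) ^ (1 - ε) ≤
          (((Finset.Icc 1 N).image (fun i : ℕ => (i : ZMod p)) * I₂ * I₃).card : ℝ) := by
  intro ε hε
  obtain ⟨c0, hc0, hclean⟩ := clean4 ε hε
  refine ⟨min c0 1 / 100000000000, by positivity, ?_⟩
  intro p hp N p₁ l₁ I₂ I₃ h₂ h₃ z₂ z₃ l₂ l₃ n₂ n₃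
  obtain ⟨a₂, N₂, hI₂⟩ := h₂
  obtain ⟨a₃, N₃, hI₃⟩ := h₃
  have e₂ := itv_card hp a₂ N₂ I₂ hI₂ z₂
  have e₃ := itv_card hp a₃ N₃ I₃ hI₃ z₃
  have p₂ : 1 ≤ N₂ := by rw [← e₂]; exact n₂.card_pos
  have p₃ : 1 ≤ N₃ := by rw [← e₃]; exact n₃.card_pos
  rw [e₂] at l₂
  rw [e₃] at l₃
  rw [e₂, e₃]
  have k₁ := cube_lt l₁
  have k₂ := cube_lt l₂
  have k₃ := cube_lt l₃
  have q₁ : (1 : ℝ) ≤ N := by exact_mod_cast p₁
  have q₂ : (1 : ℝ) ≤ N₂ := by exact_mod_cast p₂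
  have q₃ : (1 : ℝ) ≤ N₃ := by exact_mod_cast p₃
  have hp1 : (1 : ℝ) ≤ p := by exact_mod_cast hp.one_lt.le
  obtain ⟨D, hD⟩ : ∃ D : ℝ, D = max (N₂ : ℝ) (N₃ : ℝ) := ⟨_, rfl⟩
  have hD1 : 1 ≤ D := by rw [hD]; exact q₂.trans (le_max_left _ _)
  have hD0 : 0 < D := by linarith
  have hDsq : D ≤ (p : ℝ) ^ ((1 : ℝ) / 2) := by
    rw [hD]
    have h13 : (p : ℝ) ^ ((1 : ℝ) / 3) ≤ (p : ℝ) ^ ((1 : ℝ) / 2) :=
      Real.rpow_le_rpow_of_exponent_le hp1 (by norm_num)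
    exact max_le (l₂.le.trans h13) (l₃.le.trans h13)
  rw [← hD]
  obtain ⟨m, hm⟩ : ∃ m : ℝ, m = min (N : ℝ) ((p : ℝ) ^ ((1 : ℝ) / 2) / D) := ⟨_, rfl⟩
  rw [← hm]
  have hmN : m ≤ N := by rw [hm]; exact min_le_left _ _
  have m1 : 1 ≤ m := by
    rw [hm]
    refine le_min q₁ ?_
    rw [le_div_iff₀ hD0, one_mul]
    exact hDsq
  have base1 : 1 ≤ (N₂ : ℝ) * N₃ * m := by
    have : 1 ≤ (N₂ : ℝ) * N₃ := by nlinarith
    nlinarith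
  have hne : ((Finset.Icc 1 N).image (fun i : ℕ => (i : ZMod p))).Nonempty :=
    Finset.Nonempty.image ⟨1, Finset.mem_Icc.2 ⟨le_refl _, p₁⟩⟩ _
  have hcard : (1 : ℝ) ≤
      (((Finset.Icc 1 N).image (fun i : ℕ => (i : ZMod p)) * I₂ * I₃).card : ℝ) := by
    have : 1 ≤ ((Finset.Icc 1 N).image (fun i : ℕ => (i : ZMod p)) * I₂ * I₃).card :=
      ((hne.mul n₂).mul n₃).card_pos
    exact_mod_cast this
  rcases le_or_gt 1 ε with he | he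
  · exact trivial_case hε hc0 base1 (Or.inl he) hcard
  rcases lt_or_ge p 100000 with hps | hpl
  · refine trivial_case hε hc0 base1 (Or.inr ?_) hcard
    have r₁ := hmN.trans (small_len hps k₁)
    have r₂ := small_len hps k₂
    have r₃ := small_len hps k₃
    have h3 : (N₂ : ℝ) * N₃ ≤ 46 * 46 := mul_le_mul r₂ r₃ (by linarith) (by norm_num)
    calc (N₂ : ℝ) * N₃ * m ≤ (46 * 46) * 46 :=
          mul_le_mul h3 r₁ (by linarith) (by norm_num)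
      _ ≤ 100000000000 := by norm_num
  · have : Fact p.Prime := ⟨hp⟩
    obtain ⟨u₂, v₂, w₂, x₂⟩ := hundred hpl p₂ k₂
    obtain ⟨u₃, v₃, w₃, x₃⟩ := hundred hpl p₃ k₃
    -- the length of the initial subinterval
    obtain ⟨n, hn⟩ : ∃ n : ℕ, n = ⌊m⌋₊ := ⟨_, rfl⟩
    have hf := Nat.floor_le (show 0 ≤ m by linarith)
    have hf2 : m < ⌊m⌋₊ + 1 := Nat.lt_floor_add_one m
    have hn1 : 1 ≤ ⌊m⌋₊ := by
      rw [Nat.one_le_floor_iff]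
      exact m1
    rw [← hn] at hf hf2 hn1
    have hn1' : (1 : ℝ) ≤ n := by exact_mod_cast hn1
    have hn3 : (n : ℝ) ≤ (p : ℝ) ^ ((1 : ℝ) / 2) / D := by
      refine hf.trans ?_
      rw [hm]
      exact min_le_right _ _
    have hnN : n ≤ N := by exact_mod_cast hf.trans hmN
    have hD2 : (N₂ : ℝ) ≤ D := by rw [hD]; exact le_max_left _ _
    have hD3 : (N₃ : ℝ) ≤ D := by rw [hD]; exact le_max_right _ _
    have k₀ : n ^ 3 < p := lt_of_le_of_lt (Nat.pow_le_pow_left hnN 3) k₁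
    obtain ⟨u₁, v₁, w₁, x₁⟩ := hundred hpl hn1 k₀
    have t₂ := par_le hpl (two_le hD0 hD2 hn3) hn1 p₂
    have t₃ := par_le hpl (two_le hD0 hD3 hn3) hn1 p₃
    have key := (hclean p ((a₂ : ℤ) - 1) ((a₃ : ℤ) - 1) _ _ _ u₂ u₃ u₁ x₂ x₃ x₁
      (Or.inl t₂) (Or.inl t₃)
      (fun x hx1 hx2 hx0 => z₂ (hx0 ▸ sub_mem a₂ N₂ _ v₂ I₂ hI₂ x hx1 hx2))
      (fun x hx1 hx2 hx0 => z₃ (hx0 ▸ sub_mem a₃ N₃ _ v₃ I₃ hI₃ x hx1 hx2))).trans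
      (sub_prod (v₁.trans hnN) v₂ v₃ I₂ I₃ hI₂ hI₃)
    refine pass (K := 2000000) hε he hc0 (by linarith) (by positivity) (by norm_num)
      (by norm_num) ?_ key
    have y₁ : m ≤ 200 * (((n + 99) / 100 : ℕ) : ℝ) := by
      have h1 : (n : ℝ) ≤ 100 * (((n + 99) / 100 : ℕ) : ℝ) := by exact_mod_cast w₁
      linarith
    have y₂ : (N₂ : ℝ) ≤ 100 * (((N₂ + 99) / 100 : ℕ) : ℝ) := by exact_mod_cast w₂
    have y₃ : (N₃ : ℝ) ≤ 100 * (((N₃ + 99) / 100 : ℕ) : ℝ) := by exact_mod_cast w₃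
    have y₄ : (N₂ : ℝ) * N₃ ≤
        (100 * (((N₂ + 99) / 100 : ℕ) : ℝ)) * (100 * (((N₃ + 99) / 100 : ℕ) : ℝ)) :=
      mul_le_mul y₂ y₃ (by linarith) (by positivity)
    calc (N₂ : ℝ) * N₃ * m
        ≤ ((100 * (((N₂ + 99) / 100 : ℕ) : ℝ)) * (100 * (((N₃ + 99) / 100 : ℕ) : ℝ))) *
          (200 * (((n + 99) / 100 : ℕ) : ℝ)) := mul_le_mul y₄ y₁ (by linarith) (by positivity)
      _ = _ := by ring

/-- For every `ε > 0` there is `c > 0` such that for all primes `p`, all `1 ≤ N < p^{1/3}` and all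
intervals `I₂, I₃` of nonzero residues modulo `p` of cardinalities less than `p^{1/3}`,
`|{1, ..., N} I₂ I₃| ≥ c X^{1-ε}`, where `X` is the larger one of
`|I₂| |I₃| min(N, p^{1/2} / max(|I₂|, |I₃|))` and `N f(|I₂|) f(|I₃|)`, `f(h) = min(h, (p h^2)^{1/6})`. -/
theorem result :
    ∀ ε : ℝ, 0 < ε → ∃ c : ℝ, 0 < c ∧ ∀ p : ℕ, p.Prime → ∀ N : ℕ, 1 ≤ N →
      (N : ℝ) < (p : ℝ) ^ ((1 : ℝ) / 3) →
      ∀ I₂ I₃ : Finset (ZMod p),
        (∃ a n : ℕ, I₂ = (Finset.range n).image (fun i : ℕ => (((a + i : ℕ)) : ZMod p))) →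
        (∃ a n : ℕ, I₃ = (Finset.range n).image (fun i : ℕ => (((a + i : ℕ)) : ZMod p))) →
        (0 : ZMod p) ∉ I₂ → (0 : ZMod p) ∉ I₃ →
        (I₂.card : ℝ) < (p : ℝ) ^ ((1 : ℝ) / 3) →
        (I₃.card : ℝ) < (p : ℝ) ^ ((1 : ℝ) / 3) →
        I₂.Nonempty → I₃.Nonempty →
        c * (max
          ((I₂.card : ℝ) * I₃.card *
            min (N : ℝ) ((p : ℝ) ^ ((1 : ℝ) / 2) / max (I₂.card : ℝ) (I₃.card : ℝ)))
          ((N : ℝ) *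
            min (I₂.card : ℝ) (((p : ℝ) * (I₂.card : ℝ) ^ 2) ^ ((1 : ℝ) / 6)) *
            min (I₃.card : ℝ) (((p : ℝ) * (I₃.card : ℝ) ^ 2) ^ ((1 : ℝ) / 6)))) ^ (1 - ε) ≤
          (((Finset.Icc 1 N).image (fun i : ℕ => (i : ZMod p)) * I₂ * I₃).card : ℝ) := by
  intro ε hε
  obtain ⟨c₁, hc₁, b₁⟩ := bound_one ε hε
  obtain ⟨c₂, hc₂, b₂⟩ := bound_two ε hε
  refine ⟨min c₁ c₂, lt_min hc₁ hc₂, ?_⟩
  intro p hp N p₁ l₁ I₂ I₃ h₂ h₃ z₂ z₃ l₂ l₃ n₂ n₃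
  have k₁ := b₁ p hp N p₁ l₁ I₂ I₃ h₂ h₃ z₂ z₃ l₂ l₃ n₂ n₃
  have k₂ := b₂ p hp N p₁ l₁ I₂ I₃ h₂ h₃ z₂ z₃ l₂ l₃ n₂ n₃
  rcases max_choice
      ((I₂.card : ℝ) * I₃.card *
        min (N : ℝ) ((p : ℝ) ^ ((1 : ℝ) / 2) / max (I₂.card : ℝ) (I₃.card : ℝ)))
      ((N : ℝ) *
        min (I₂.card : ℝ) (((p : ℝ) * (I₂.card : ℝ) ^ 2) ^ ((1 : ℝ) / 6)) *
        min (I₃.card : ℝ) (((p : ℝ) * (I₃.card : ℝ) ^ 2) ^ ((1 : ℝ) / 6))) with h | h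
  · rw [h]
    exact (mul_le_mul_of_nonneg_right (min_le_right _ _) (by positivity)).trans k₂
  · rw [h]
    exact (mul_le_mul_of_nonneg_right (min_le_left _ _) (by positivity)).trans k₁

end Pool.Agent.Results.MP_03bc95_nt.InitialInterval
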