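import Pool.Agent.H.MP_03bc95_nt.N.K1

/-!
# MP_03bc95 : three short intervals modulo a prime, one of them of length at most `p^{1/9}`

For all intervals of length less than `p^{1/3}` the product set has at least
`c (|I₁| |I₂| min(|I₃|, (p / max(|I₁|, |I₂|))^{1/6}))^{1-ε}` elements.
The proof passes to subintervals of one hundredth of the length and uses `clean3`.
-/

open Finset
open scoped Pointwise

namespace Pool.Agent.Results.MP_03bc95_nt.SharpRegion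

open Pool.Agent.H.MP_03bc95_nt

/-- An interval without `0` has fewer than `p` indices and as many elements as indices. -/
theorem itv_card {p : ℕ} (hp : p.Prime) (a N : ℕ) (I : Finset (ZMod p))
    (hI : I = (Finset.range N).image (fun i : ℕ => (((a + i : ℕ)) : ZMod p)))
    (h0 : (0 : ZMod p) ∉ I) : I.card = N := by
  have hpos : 0 < p := hp.pos
  have hNp : N < p := by
    by_contra hcon
    push Not at hcon
    apply h0
    rw [hI, Finset.mem_image]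
    refine ⟨(p - a % p) % p, ?_, ?_⟩
    · rw [Finset.mem_range]
      exact lt_of_lt_of_le (Nat.mod_lt _ hpos) hcon
    · rw [ZMod.natCast_eq_zero_iff]
      have h1 : a % p < p := Nat.mod_lt _ hpos
      rw [Nat.dvd_iff_mod_eq_zero, Nat.add_mod, Nat.mod_mod, ← Nat.add_mod,
        ← Nat.mod_add_mod]
      rw [show a % p + (p - a % p) = p by omega, Nat.mod_self]
  rw [hI, Finset.card_image_of_injOn, Finset.card_range]
  intro i hi j hj hij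
  have hi' : i < N := by simpa using hi
  have hj' : j < N := by simpa using hj
  have h1 : ((a + i : ℕ) : ZMod p) = ((a + j : ℕ) : ZMod p) := hij
  rw [ZMod.natCast_eq_natCast_iff] at h1
  have h2 : i ≡ j [MOD p] := Nat.ModEq.add_left_cancel' a h1
  exact Nat.ModEq.eq_of_lt_of_lt h2 (by omega) (by omega)

/-- The elements of the subinterval `a - 1 + {1..h}`, `h ≤ N`. -/
theorem sub_mem {p : ℕ} (a N h : ℕ) (hN : h ≤ N) (I : Finset (ZMod p))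
    (hI : I = (Finset.range N).image (fun i : ℕ => (((a + i : ℕ)) : ZMod p)))
    (x : ℤ) (h1 : 1 ≤ x) (h2 : x ≤ h) : ((((a : ℤ) - 1) + x : ℤ) : ZMod p) ∈ I := by
  rw [hI, Finset.mem_image]
  obtain ⟨n, hn⟩ : ∃ n : ℕ, x = n + 1 := ⟨(x - 1).toNat, by omega⟩
  refine ⟨n, ?_, ?_⟩
  · rw [Finset.mem_range]
    omega
  · rw [hn]
    push_cast
    ring

/-- The subinterval is contained in the interval. -/
theorem sub_itv {p : ℕ} (a N h : ℕ) (hN : h ≤ N) (I : Finset (ZMod p))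
    (hI : I = (Finset.range N).image (fun i : ℕ => (((a + i : ℕ)) : ZMod p))) :
    Itv p ((a : ℤ) - 1) h ⊆ I := by
  intro y hy
  unfold Itv at hy
  rw [Finset.mem_image] at hy
  obtain ⟨x, hx, rfl⟩ := hy
  rw [Finset.mem_Icc] at hx
  exact sub_mem a N h hN I hI x hx.1 hx.2

/-- The condition on the subinterval: `10^5 h^3 ≤ p` for `h = ⌈N/100⌉`. -/
theorem hundred {p N : ℕ} (hp : 100000 ≤ p) (hN : 1 ≤ N) (hNp : N ^ 3 < p) :
    1 ≤ (N + 99) / 100 ∧ (N + 99) / 100 ≤ N ∧ N ≤ 100 * ((N + 99) / 100) ∧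
      100000 * ((N + 99) / 100) ^ 3 ≤ p := by
  refine ⟨by omega, by omega, by omega, ?_⟩
  rcases le_or_gt N 100 with h | h
  · have : (N + 99) / 100 = 1 := by omega
    rw [this]
    simpa using hp
  · have h2 : 50 * ((N + 99) / 100) ≤ N := by omega
    have h3 : (50 * ((N + 99) / 100)) ^ 3 ≤ N ^ 3 := Nat.pow_le_pow_left h2 3
    have h4 : (50 * ((N + 99) / 100)) ^ 3 = 125000 * ((N + 99) / 100) ^ 3 := by ring
    omega

theorem cube_lt {n p : ℕ} (hn : (n : ℝ) < (p : ℝ) ^ ((1 : ℝ) / 3)) : n ^ 3 < p := by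
  have h1 : (n : ℝ) ^ (3 : ℕ) < ((p : ℝ) ^ ((1 : ℝ) / 3)) ^ (3 : ℕ) :=
    pow_lt_pow_left₀ hn (Nat.cast_nonneg n) (by norm_num)
  have h2 : ((p : ℝ) ^ ((1 : ℝ) / 3)) ^ (3 : ℕ) = p := by
    rw [← Real.rpow_natCast, ← Real.rpow_mul (Nat.cast_nonneg p)]
    norm_num
  rw [h2] at h1
  exact_mod_cast h1

/-- A natural number at most `(p / h)^{1/6}` has `n^6 h ≤ p`. -/
theorem six_le {n h p : ℕ} (hh : 1 ≤ h) (hn : (n : ℝ) ≤ ((p : ℝ) / h) ^ ((1 : ℝ) / 6)) :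
    n ^ 6 * h ≤ p := by
  have hh0 : (0 : ℝ) < h := by exact_mod_cast hh
  have h0 : (0 : ℝ) ≤ (p : ℝ) / h := by positivity
  have h1 : (n : ℝ) ^ (6 : ℕ) ≤ (((p : ℝ) / h) ^ ((1 : ℝ) / 6)) ^ (6 : ℕ) :=
    pow_le_pow_left₀ (Nat.cast_nonneg n) hn 6
  have h2 : (((p : ℝ) / h) ^ ((1 : ℝ) / 6)) ^ (6 : ℕ) = (p : ℝ) / h := by
    rw [← Real.rpow_natCast, ← Real.rpow_mul h0]
    norm_num
  rw [h2, le_div_iff₀ hh0] at h1
  exact_mod_cast h1

/-- For every `ε > 0` there is `c > 0` such that for all primes `p` and all intervals `I₁, I₂, I₃` of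
nonzero residues modulo `p` of cardinalities less than `p^{1/3}`,
`|I₁ I₂ I₃| ≥ c (|I₁| |I₂| min(|I₃|, (p / max(|I₁|, |I₂|))^{1/6}))^{1-ε}`. -/
theorem result :
    ∀ ε : ℝ, 0 < ε → ∃ c : ℝ, 0 < c ∧ ∀ p : ℕ, p.Prime →
      ∀ I₁ I₂ I₃ : Finset (ZMod p),
        (∃ a N : ℕ, I₁ = (Finset.range N).image (fun i : ℕ => (((a + i : ℕ)) : ZMod p))) →
        (∃ a N : ℕ, I₂ = (Finset.range N).image (fun i : ℕ => (((a + i : ℕ)) : ZMod p))) →
        (∃ a N : ℕ, I₃ = (Finset.range N).image (fun i : ℕ => (((a + i : ℕ)) : ZMod p))) →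
        (0 : ZMod p) ∉ I₁ → (0 : ZMod p) ∉ I₂ → (0 : ZMod p) ∉ I₃ →
        (I₁.card : ℝ) < (p : ℝ) ^ ((1 : ℝ) / 3) →
        (I₂.card : ℝ) < (p : ℝ) ^ ((1 : ℝ) / 3) →
        (I₃.card : ℝ) < (p : ℝ) ^ ((1 : ℝ) / 3) →
        I₁.Nonempty → I₂.Nonempty → I₃.Nonempty →
        c * ((I₁.card : ℝ) * I₂.card *
          min (I₃.card : ℝ) (((p : ℝ) / max (I₁.card : ℝ) (I₂.card : ℝ)) ^ ((1 : ℝ) / 6)))
            ^ (1 - ε) ≤ ((I₁ * I₂ * I₃).card : ℝ) := by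
  intro ε hε
  obtain ⟨c0, hc0, hclean⟩ := clean3 ε hε
  refine ⟨min c0 1 / 100000000000, by positivity, ?_⟩
  intro p hp I₁ I₂ I₃ h₁ h₂ h₃ z₁ z₂ z₃ l₁ l₂ l₃ n₁ n₂ n₃
  obtain ⟨a₁, N₁, hI₁⟩ := h₁
  obtain ⟨a₂, N₂, hI₂⟩ := h₂
  obtain ⟨a₃, N₃, hI₃⟩ := h₃
  have e₁ := itv_card hp a₁ N₁ I₁ hI₁ z₁
  have e₂ := itv_card hp a₂ N₂ I₂ hI₂ z₂
  have e₃ := itv_card hp a₃ N₃ I₃ hI₃ z₃
  have p₁ : 1 ≤ N₁ := by rw [← e₁]; exact n₁.card_pos
  have p₂ : 1 ≤ N₂ := by rw [← e₂]; exact n₂.card_pos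
  have p₃ : 1 ≤ N₃ := by rw [← e₃]; exact n₃.card_pos
  rw [e₁] at l₁
  rw [e₂] at l₂
  rw [e₃] at l₃
  rw [e₁, e₂, e₃]
  have k₁ := cube_lt l₁
  have k₂ := cube_lt l₂
  have k₃ := cube_lt l₃
  have q₁ : (1 : ℝ) ≤ N₁ := by exact_mod_cast p₁
  have q₂ : (1 : ℝ) ≤ N₂ := by exact_mod_cast p₂
  have q₃ : (1 : ℝ) ≤ N₃ := by exact_mod_cast p₃
  have hMp : ∀ N : ℕ, N ^ 3 < p → (N : ℝ) ≤ p := by
    intro N hN
    have h1 : N ≤ N ^ 3 := Nat.le_self_pow (by norm_num) N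
    have h2 : N ≤ p := by omega
    exact_mod_cast h2
  have hM1 : (1 : ℝ) ≤ max (N₁ : ℝ) (N₂ : ℝ) := q₁.trans (le_max_left _ _)
  have hM0 : (0 : ℝ) < max (N₁ : ℝ) (N₂ : ℝ) := by linarith
  have hMp' : max (N₁ : ℝ) (N₂ : ℝ) ≤ p := max_le (hMp N₁ k₁) (hMp N₂ k₂)
  have hpM : 1 ≤ (p : ℝ) / max (N₁ : ℝ) (N₂ : ℝ) := by
    rw [le_div_iff₀ hM0, one_mul]
    exact hMp'
  set m : ℝ := min (N₃ : ℝ) (((p : ℝ) / max (N₁ : ℝ) (N₂ : ℝ)) ^ ((1 : ℝ) / 6)) with hm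
  have m1 : 1 ≤ m := by
    rw [hm]
    exact le_min q₃ (Real.one_le_rpow hpM (by norm_num))
  have base1 : 1 ≤ (N₁ : ℝ) * N₂ * m := by
    have : 1 ≤ (N₁ : ℝ) * N₂ := by nlinarith
    nlinarith
  have hcard : (1 : ℝ) ≤ ((I₁ * I₂ * I₃).card : ℝ) := by
    have : 1 ≤ (I₁ * I₂ * I₃).card := ((n₁.mul n₂).mul n₃).card_pos
    exact_mod_cast this
  have hcle1 : min c0 1 ≤ 1 := min_le_right _ _
  have hcle0 : min c0 1 ≤ c0 := min_le_left _ _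
  have hcpos : 0 < min c0 1 := lt_min hc0 one_pos
  rcases le_or_gt 1 ε with he | he
  · -- exponent nonpositive
    have h1 : ((N₁ : ℝ) * N₂ * m) ^ (1 - ε) ≤ 1 :=
      Real.rpow_le_one_of_one_le_of_nonpos base1 (by linarith)
    have h2 : 0 ≤ ((N₁ : ℝ) * N₂ * m) ^ (1 - ε) := by positivity
    calc min c0 1 / 100000000000 * ((N₁ : ℝ) * N₂ * m) ^ (1 - ε) ≤ 1 * 1 := by
          apply mul_le_mul _ h1 h2 zero_le_one
          linarith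
      _ ≤ _ := by simpa using hcard
  rcases lt_or_ge p 10000000000 with hps | hpl
  · -- small primes
    have bb : ∀ N : ℕ, N ^ 3 < p → N ≤ 2154 := by
      intro N hN
      by_contra hcon
      push Not at hcon
      have : 2155 ^ 3 ≤ N ^ 3 := Nat.pow_le_pow_left hcon 3
      omega
    have b₁ := bb N₁ k₁
    have b₂ := bb N₂ k₂
    have b₃ := bb N₃ k₃
    have r₁ : (N₁ : ℝ) ≤ 2154 := by exact_mod_cast b₁
    have r₂ : (N₂ : ℝ) ≤ 2154 := by exact_mod_cast b₂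
    have r₃ : (N₃ : ℝ) ≤ 2154 := by exact_mod_cast b₃
    have rm : m ≤ 2154 := le_trans (min_le_left _ _) r₃
    have h1 : ((N₁ : ℝ) * N₂ * m) ^ (1 - ε) ≤ (N₁ : ℝ) * N₂ * m := by
      calc ((N₁ : ℝ) * N₂ * m) ^ (1 - ε) ≤ ((N₁ : ℝ) * N₂ * m) ^ (1 : ℝ) :=
            Real.rpow_le_rpow_of_exponent_le base1 (by linarith)
        _ = _ := Real.rpow_one _
    have h2 : (N₁ : ℝ) * N₂ * m ≤ 100000000000 := by
      have h3 : (N₁ : ℝ) * N₂ ≤ 2154 * 2154 := mul_le_mul r₁ r₂ (by linarith) (by norm_num)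
      calc (N₁ : ℝ) * N₂ * m ≤ (2154 * 2154) * 2154 :=
            mul_le_mul h3 rm (by linarith) (by norm_num)
        _ ≤ 100000000000 := by norm_num
    have h3 : 0 ≤ ((N₁ : ℝ) * N₂ * m) ^ (1 - ε) := by positivity
    calc min c0 1 / 100000000000 * ((N₁ : ℝ) * N₂ * m) ^ (1 - ε)
        ≤ 1 / 100000000000 * 100000000000 := by
          apply mul_le_mul _ (h1.trans h2) h3 (by norm_num)
          linarith
      _ = 1 := by norm_num
      _ ≤ _ := hcard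
  · -- main case
    have : Fact p.Prime := ⟨hp⟩
    have hpl' : 100000 ≤ p := by omega
    obtain ⟨u₁, v₁, w₁, x₁⟩ := hundred hpl' p₁ k₁
    obtain ⟨u₂, v₂, w₂, x₂⟩ := hundred hpl' p₂ k₂
    set g₁ := (N₁ + 99) / 100 with hg₁
    set g₂ := (N₂ + 99) / 100 with hg₂
    have s₁ : (1 : ℝ) ≤ g₁ := by exact_mod_cast u₁
    have s₂ : (1 : ℝ) ≤ g₂ := by exact_mod_cast u₂
    have m0 : 0 ≤ m := by linarith
    set Hn := ⌊m⌋₊ with hHn
    have H1 : 1 ≤ Hn := by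
      rw [hHn, Nat.one_le_floor_iff]
      exact m1
    have Hr : (Hn : ℝ) ≤ m := Nat.floor_le m0
    have Hr2 : m ≤ 2 * Hn := by
      have : m < Hn + 1 := Nat.lt_floor_add_one m
      have h1 : (1 : ℝ) ≤ Hn := by exact_mod_cast H1
      linarith
    have six : ∀ g : ℕ, 1 ≤ g → (g : ℝ) ≤ max (N₁ : ℝ) (N₂ : ℝ) → Hn ^ 6 * g ≤ p := by
      intro g hg hgM
      apply six_le hg
      have hg0 : (0 : ℝ) < g := by exact_mod_cast hg
      refine Hr.trans ((min_le_right _ _).trans ?_)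
      apply Real.rpow_le_rpow (by positivity) _ (by norm_num)
      exact div_le_div_of_nonneg_left (Nat.cast_nonneg p) hg0 hgM
    have v₁' : (g₁ : ℝ) ≤ N₁ := by exact_mod_cast v₁
    have v₂' : (g₂ : ℝ) ≤ N₂ := by exact_mod_cast v₂
    have t₁ : Hn ^ 6 * g₁ ≤ p := six g₁ u₁ (v₁'.trans (le_max_left _ _))
    have t₂ : Hn ^ 6 * g₂ ≤ p := six g₂ u₂ (v₂'.trans (le_max_right _ _))
    have t₃ : Hn ≤ N₃ := by
      have : (Hn : ℝ) ≤ N₃ := Hr.trans (min_le_left _ _)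
      exact_mod_cast this
    have key := hclean p ((a₁ : ℤ) - 1) ((a₂ : ℤ) - 1) ((a₃ : ℤ) - 1) g₁ g₂ Hn u₁ u₂ H1 hpl
      x₁ x₂ t₁ t₂
      (fun x hx1 hx2 hx0 => z₁ (hx0 ▸ sub_mem a₁ N₁ g₁ v₁ I₁ hI₁ x hx1 hx2))
      (fun x hx1 hx2 hx0 => z₂ (hx0 ▸ sub_mem a₂ N₂ g₂ v₂ I₂ hI₂ x hx1 hx2))
      (fun x hx1 hx2 hx0 => z₃ (hx0 ▸ sub_mem a₃ N₃ Hn t₃ I₃ hI₃ x hx1 hx2))
    have hsub : Itv p ((a₁ : ℤ) - 1) g₁ * Itv p ((a₂ : ℤ) - 1) g₂ * Itv p ((a₃ : ℤ) - 1) Hn ⊆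
        I₁ * I₂ * I₃ :=
      Finset.mul_subset_mul (Finset.mul_subset_mul (sub_itv a₁ N₁ g₁ v₁ I₁ hI₁)
        (sub_itv a₂ N₂ g₂ v₂ I₂ hI₂)) (sub_itv a₃ N₃ Hn t₃ I₃ hI₃)
    have hcards : ((Itv p ((a₁ : ℤ) - 1) g₁ * Itv p ((a₂ : ℤ) - 1) g₂ *
        Itv p ((a₃ : ℤ) - 1) Hn).card : ℝ) ≤ ((I₁ * I₂ * I₃).card : ℝ) := by
      exact_mod_cast Finset.card_le_card hsub
    have hbase : (N₁ : ℝ) * N₂ * m ≤ 100000 * ((g₁ : ℝ) * g₂ * Hn) := by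
      have y₁ : (N₁ : ℝ) ≤ 100 * g₁ := by exact_mod_cast w₁
      have y₂ : (N₂ : ℝ) ≤ 100 * g₂ := by exact_mod_cast w₂
      have y₃ : (N₁ : ℝ) * N₂ ≤ (100 * g₁) * (100 * g₂) :=
        mul_le_mul y₁ y₂ (by linarith) (by linarith)
      calc (N₁ : ℝ) * N₂ * m ≤ ((100 * g₁) * (100 * g₂)) * (2 * Hn) :=
            mul_le_mul y₃ Hr2 (by linarith) (by positivity)
        _ = 20000 * ((g₁ : ℝ) * g₂ * Hn) := by ring
        _ ≤ _ := by
            apply mul_le_mul_of_nonneg_right (by norm_num)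
            positivity
    have hpow : ((N₁ : ℝ) * N₂ * m) ^ (1 - ε) ≤
        100000 * ((g₁ : ℝ) * g₂ * Hn) ^ (1 - ε) := by
      calc ((N₁ : ℝ) * N₂ * m) ^ (1 - ε) ≤ (100000 * ((g₁ : ℝ) * g₂ * Hn)) ^ (1 - ε) :=
            Real.rpow_le_rpow (by linarith) hbase (by linarith)
        _ = (100000 : ℝ) ^ (1 - ε) * ((g₁ : ℝ) * g₂ * Hn) ^ (1 - ε) :=
            Real.mul_rpow (by norm_num) (by positivity)
        _ ≤ (100000 : ℝ) ^ (1 : ℝ) * ((g₁ : ℝ) * g₂ * Hn) ^ (1 - ε) := by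
            apply mul_le_mul_of_nonneg_right _ (by positivity)
            exact Real.rpow_le_rpow_of_exponent_le (by norm_num) (by linarith)
        _ = _ := by rw [Real.rpow_one]
    have hG0 : 0 ≤ ((g₁ : ℝ) * g₂ * Hn) ^ (1 - ε) := by positivity
    calc min c0 1 / 100000000000 * ((N₁ : ℝ) * N₂ * m) ^ (1 - ε)
        ≤ min c0 1 / 100000000000 * (100000 * ((g₁ : ℝ) * g₂ * Hn) ^ (1 - ε)) :=
          mul_le_mul_of_nonneg_left hpow (by positivity)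
      _ = min c0 1 * ((g₁ : ℝ) * g₂ * Hn) ^ (1 - ε) / 1000000 := by ring
      _ ≤ min c0 1 * ((g₁ : ℝ) * g₂ * Hn) ^ (1 - ε) :=
          div_le_self (mul_nonneg hcpos.le hG0) (by norm_num)
      _ ≤ c0 * ((g₁ : ℝ) * g₂ * Hn) ^ (1 - ε) :=
          mul_le_mul_of_nonneg_right hcle0 hG0
      _ ≤ _ := key
      _ ≤ _ := hcards

end Pool.Agent.Results.MP_03bc95_nt.SharpRegion
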